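import Mathlib

/-!
The semi-dissipative Boussinesq system on the two dimensional torus `ℝ² / (L ℤ²)`.

Functions of `x ∈ ℝ² / (L ℤ²)` are written in the variable `y = x / L ∈ ℝ² / ℤ²`. All spatial
derivatives are derivatives in `x`.
-/

open MeasureTheory Set Filter Topology

namespace Pool.Agent.V1183.BQ

/-- The torus (in the variable `y = x / L`). -/
abbrev T2 := UnitAddTorus (Fin 2)

/-- Normalised Lebesgue measure on the torus. -/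
noncomputable def mu : Measure T2 := Measure.pi fun _ => AddCircle.haarAddCircle

/-- The exponential `e_k(x) = exp (2 π i k·x / L)`, in the variable `y = x / L`. -/
noncomputable def ek (k : Fin 2 → ℤ) (y : T2) : ℂ := UnitAddTorus.mFourier k y

/-- The derivative `∂_j e_k = (2 π i k_j / L) e_k`. -/
noncomputable def dek (L : ℝ) (k : Fin 2 → ℤ) (j : Fin 2) (y : T2) : ℂ :=
  ((2 * Real.pi / L * k j : ℝ) : ℂ) * Complex.I * ek k y

/-- The Laplacian `Δ e_k = - (2 π / L)² |k|² e_k`. -/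
noncomputable def lek (L : ℝ) (k : Fin 2 → ℤ) (y : T2) : ℂ :=
  -(((2 * Real.pi / L) ^ 2 * ((k 0 : ℝ) ^ 2 + (k 1 : ℝ) ^ 2) : ℝ) : ℂ) * ek k y

/-- The mean-free space `L²`: square integrable real functions with zero mean. -/
def InL2 (f : T2 → ℝ) : Prop := MemLp f 2 mu ∧ ∫ y, f y ∂mu = 0

/-- Fourier coefficient. -/
noncomputable def fcf (f : T2 → ℝ) (k : Fin 2 → ℤ) : ℂ := ∫ y, (f y : ℂ) * ek (-k) y ∂mu

/-- The component `c·u` of a vector field `u = (u 0, u 1)`. -/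
noncomputable def dotv (c : Fin 2 → ℝ) (u : Fin 2 → T2 → ℝ) (y : T2) : ℂ :=
  ((c 0 * u 0 y + c 1 * u 1 y : ℝ) : ℂ)

/-- `u·∇e_k`. -/
noncomputable def advv (L : ℝ) (u : Fin 2 → T2 → ℝ) (k : Fin 2 → ℤ) (y : T2) : ℂ :=
  (u 0 y : ℂ) * dek L k 0 y + (u 1 y : ℂ) * dek L k 1 y

/-- The space `H`: mean-free, weakly divergence-free, square integrable vector fields. -/
def InH (L : ℝ) (u : Fin 2 → T2 → ℝ) : Prop :=
  (∀ i, InL2 (u i)) ∧ ∀ k, ∫ y, advv L u k y ∂mu = 0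

/-- The weak form of the right-hand side of the momentum equation tested against `c e_k`:
`∫ (u·c)(u·∇e_k) + ν (u·c) Δe_k + g θ c₂ e_k`. -/
noncomputable def momRHS (L ν g : ℝ) (u : Fin 2 → T2 → ℝ) (θ : T2 → ℝ) (k : Fin 2 → ℤ)
    (c : Fin 2 → ℝ) : ℂ :=
  ∫ y, (dotv c u y * advv L u k y
    + (ν : ℂ) * dotv c u y * lek L k y + (g : ℂ) * (c 1 : ℂ) * (θ y : ℂ) * ek k y) ∂mu

/-- The weak form of the right-hand side of the temperature equation tested against `e_k`: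
`∫ θ u·∇e_k`. -/
noncomputable def temRHS (L : ℝ) (u : Fin 2 → T2 → ℝ) (θ : T2 → ℝ) (k : Fin 2 → ℤ) : ℂ :=
  ∫ y, (θ y : ℂ) * advv L u k y ∂mu

/-- `∑ |k|² |û(k)|²`, which is `‖∇u‖²` up to a constant factor. -/
noncomputable def gradSqr (u : Fin 2 → T2 → ℝ) : ENNReal :=
  ∑' k : Fin 2 → ℤ, ENNReal.ofReal (((k 0 : ℝ) ^ 2 + (k 1 : ℝ) ^ 2)
    * (‖fcf (u 0) k‖ ^ 2 + ‖fcf (u 1) k‖ ^ 2))

/-- Weak continuity in `L²` on the time interval `I`. -/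
def WkCts (I : Set ℝ) (f : ℝ → T2 → ℝ) : Prop :=
  ∀ φ : T2 → ℝ, MemLp φ 2 mu → ContinuousOn (fun t => ∫ y, f t y * φ y ∂mu) I

/-- The momentum equation tested against `c e_k` and integrated from `s` to `t`. -/
def MomentumEq (L ν g : ℝ) (u : ℝ → Fin 2 → T2 → ℝ) (θ : ℝ → T2 → ℝ) (k : Fin 2 → ℤ)
    (c : Fin 2 → ℝ) (s t : ℝ) : Prop :=
  IntervalIntegrable (fun τ => momRHS L ν g (u τ) (θ τ) k c) volume s t ∧
  (∫ y, dotv c (u t) y * ek k y ∂mu) - (∫ y, dotv c (u s) y * ek k y ∂mu)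
    = ∫ τ in s..t, momRHS L ν g (u τ) (θ τ) k c

/-- The temperature equation tested against `e_k` and integrated from `s` to `t`. -/
def TemperatureEq (L : ℝ) (u : ℝ → Fin 2 → T2 → ℝ) (θ : ℝ → T2 → ℝ) (k : Fin 2 → ℤ)
    (s t : ℝ) : Prop :=
  IntervalIntegrable (fun τ => temRHS L (u τ) (θ τ) k) volume s t ∧
  (∫ y, (θ t y : ℂ) * ek k y ∂mu) - (∫ y, (θ s y : ℂ) * ek k y ∂mu)
    = ∫ τ in s..t, temRHS L (u τ) (θ τ) k

/-- Solutions of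
`∂ₜu + (u·∇)u + ∇p = νΔu + θ(0,g)`, `∂ₜθ + (u·∇)θ = 0`, `∇·u = 0`
on a time interval `I`: `u ∈ C_w(I;H) ∩ L²_loc(I;V)`, `θ ∈ C_w(I;L²)`, the momentum equation
tested against every divergence-free field `c e_k` (`c·k = 0`), the temperature equation
tested against every `e_k`, both integrated in time. -/
structure IsSolution (L ν g : ℝ) (I : Set ℝ) (u : ℝ → Fin 2 → T2 → ℝ) (θ : ℝ → T2 → ℝ) :
    Prop where
  u_H : ∀ t ∈ I, InH L (u t)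
  θ_L2 : ∀ t ∈ I, InL2 (θ t)
  u_cw : ∀ i, WkCts I (fun t => u t i)
  θ_cw : WkCts I θ
  u_V : ∀ s ∈ I, ∀ t ∈ I, ∫⁻ τ in Icc s t, gradSqr (u τ) < ⊤
  momentum : ∀ (k : Fin 2 → ℤ) (c : Fin 2 → ℝ), c 0 * k 0 + c 1 * k 1 = 0 →
    ∀ s ∈ I, ∀ t ∈ I, s ≤ t → MomentumEq L ν g u θ k c s t
  temperature : ∀ k : Fin 2 → ℤ, ∀ s ∈ I, ∀ t ∈ I, s ≤ t → TemperatureEq L u θ k s t

/-- The squared norm in `H × L²` is at most `M`. -/
def NormSqLe (u : Fin 2 → T2 → ℝ) (θ : T2 → ℝ) (M : ℝ) : Prop :=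
  (∫ y, ((u 0 y) ^ 2 + (u 1 y) ^ 2) ∂mu) + (∫ y, (θ y) ^ 2 ∂mu) ≤ M

/-- `(u₀, θ₀)` belongs to the attractor `𝒜`: it is the value at time `0` of a solution on `ℝ`
which is bounded in `H × L²`. -/
def InAttractor (L ν g : ℝ) (u0 : Fin 2 → T2 → ℝ) (θ0 : T2 → ℝ) : Prop :=
  ∃ (u : ℝ → Fin 2 → T2 → ℝ) (θ : ℝ → T2 → ℝ), IsSolution L ν g univ u θ ∧
    (∀ i, u 0 i =ᵐ[mu] u0 i) ∧ θ 0 =ᵐ[mu] θ0 ∧ ∃ M : ℝ, ∀ t, NormSqLe (u t) (θ t) M

end Pool.Agent.V1183.BQ
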