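import Mathlib
import Pool.Agent.V1183.BQ.Def

/-!
The semi-dissipative Boussinesq system on the two dimensional torus `ℝ² / (L ℤ²)`.

Functions of `x ∈ ℝ² / (L ℤ²)` are written in the variable `y = x / L ∈ ℝ² / ℤ²`. All spatial
derivatives are derivatives in `x`.
-/

open MeasureTheory Set Filter Topology

namespace Pool.Agent.V1183.BQ

instance : IsProbabilityMeasure mu := by unfold mu; infer_instance

/-- Real square integrable functions on the torus. -/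
noncomputable abbrev L2 := Lp ℝ 2 mu

/-- Fourier coefficient. -/
noncomputable def fc (f : L2) (k : Fin 2 → ℤ) : ℂ := ∫ y, (f y : ℂ) * ek (-k) y ∂mu

/-- The component `c·u` of a vector field. -/
noncomputable def dotf (c : Fin 2 → ℝ) (u : Fin 2 → L2) (y : T2) : ℂ :=
  ((c 0 * u 0 y + c 1 * u 1 y : ℝ) : ℂ)

/-- `u·∇e_k`. -/
noncomputable def adv (L : ℝ) (u : Fin 2 → L2) (k : Fin 2 → ℤ) (y : T2) : ℂ :=
  (u 0 y : ℂ) * dek L k 0 y + (u 1 y : ℂ) * dek L k 1 y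

/-- The space `H`: mean-free, weakly divergence-free, square integrable vector fields. -/
def IsH (L : ℝ) (u : Fin 2 → L2) : Prop :=
  (∀ i, ∫ y, u i y ∂mu = 0) ∧ ∀ k, ∫ y, adv L u k y ∂mu = 0

/-- The weak form of the right-hand side of the momentum equation tested against `c e_k`. -/
noncomputable def momR (L ν g : ℝ) (u : Fin 2 → L2) (θ : L2) (k : Fin 2 → ℤ) (c : Fin 2 → ℝ) :
    ℂ :=
  ∫ y, (dotf c u y * adv L u k y
    + (ν : ℂ) * dotf c u y * lek L k y + (g : ℂ) * (c 1 : ℂ) * (θ y : ℂ) * ek k y) ∂mu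

/-- The weak form of the right-hand side of the temperature equation tested against `e_k`. -/
noncomputable def temR (L : ℝ) (u : Fin 2 → L2) (θ : L2) (k : Fin 2 → ℤ) : ℂ :=
  ∫ y, (θ y : ℂ) * adv L u k y ∂mu

/-- `∑ |k|² |û(k)|²`, which is `‖∇u‖²` up to a constant. -/
noncomputable def gradSq (u : Fin 2 → L2) : ENNReal :=
  ∑' k : Fin 2 → ℤ, ENNReal.ofReal (((k 0 : ℝ) ^ 2 + (k 1 : ℝ) ^ 2)
    * (‖fc (u 0) k‖ ^ 2 + ‖fc (u 1) k‖ ^ 2))

/-- Weak continuity on `I` in `L²`. -/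
def WeakCts (I : Set ℝ) (f : ℝ → L2) : Prop :=
  ∀ φ : L2, ContinuousOn (fun t => inner ℝ (f t) φ) I

/-- The momentum equation tested against `c e_k` and integrated from `s` to `t`. -/
def MomEq (L ν g : ℝ) (u : ℝ → Fin 2 → L2) (θ : ℝ → L2) (k : Fin 2 → ℤ) (c : Fin 2 → ℝ)
    (s t : ℝ) : Prop :=
  IntervalIntegrable (fun τ => momR L ν g (u τ) (θ τ) k c) volume s t ∧
  (∫ y, dotf c (u t) y * ek k y ∂mu) - (∫ y, dotf c (u s) y * ek k y ∂mu)
    = ∫ τ in s..t, momR L ν g (u τ) (θ τ) k c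

/-- The temperature equation tested against `e_k` and integrated from `s` to `t`. -/
def TemEq (L : ℝ) (u : ℝ → Fin 2 → L2) (θ : ℝ → L2) (k : Fin 2 → ℤ) (s t : ℝ) : Prop :=
  IntervalIntegrable (fun τ => temR L (u τ) (θ τ) k) volume s t ∧
  (∫ y, (θ t y : ℂ) * ek k y ∂mu) - (∫ y, (θ s y : ℂ) * ek k y ∂mu)
    = ∫ τ in s..t, temR L (u τ) (θ τ) k

/-- Solutions of
`∂ₜu + (u·∇)u + ∇p = νΔu + θ(0,g)`, `∂ₜθ + (u·∇)θ = 0`, `∇·u = 0`
on a time interval `I`: `u ∈ C_w(I;H) ∩ L²_loc(I;V)`, `θ ∈ C_w(I;L²)`, the momentum equation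
tested against every divergence-free field `c e_k` (`c·k = 0`), the temperature equation
tested against every `e_k`, both integrated in time. -/
structure IsSol (L ν g : ℝ) (I : Set ℝ) (u : ℝ → Fin 2 → L2) (θ : ℝ → L2) : Prop where
  u_H : ∀ t ∈ I, IsH L (u t)
  θ_mean : ∀ t ∈ I, ∫ y, θ t y ∂mu = 0
  u_cw : ∀ i, WeakCts I (fun t => u t i)
  θ_cw : WeakCts I θ
  u_V : ∀ s ∈ I, ∀ t ∈ I, ∫⁻ τ in Icc s t, gradSq (u τ) < ⊤
  momentum : ∀ (k : Fin 2 → ℤ) (c : Fin 2 → ℝ), c 0 * k 0 + c 1 * k 1 = 0 →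
    ∀ s ∈ I, ∀ t ∈ I, s ≤ t → MomEq L ν g u θ k c s t
  temperature : ∀ k : Fin 2 → ℤ, ∀ s ∈ I, ∀ t ∈ I, s ≤ t → TemEq L u θ k s t

theorem WeakCts.toWkCts {I : Set ℝ} {f : ℝ → L2} (h : WeakCts I f) :
    WkCts I (fun t => (f t : T2 → ℝ)) := by
  intro φ hφ
  have h1 := h hφ.toLp
  refine h1.congr fun t _ => ?_
  show _ = inner ℝ (f t) (hφ.toLp)
  rw [L2.inner_def]
  refine integral_congr_ae ?_
  filter_upwards [hφ.coeFn_toLp] with y hy
  rw [hy]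
  simp [mul_comm]

/-- transfer to the notions of the statement -/
theorem IsSol.toIsSolution {L ν g : ℝ} {I : Set ℝ} {u : ℝ → Fin 2 → L2} {θ : ℝ → L2}
    (h : IsSol L ν g I u θ) :
    IsSolution L ν g I (fun t i => (u t i : T2 → ℝ)) (fun t => (θ t : T2 → ℝ)) :=
  ⟨fun t ht => ⟨fun i => ⟨Lp.memLp _, (h.u_H t ht).1 i⟩, (h.u_H t ht).2⟩,
    fun t ht => ⟨Lp.memLp _, h.θ_mean t ht⟩, fun i => (h.u_cw i).toWkCts, h.θ_cw.toWkCts,
    h.u_V, h.momentum, h.temperature⟩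

theorem int_sq (f : L2) : ∫ y, (f y) ^ 2 ∂mu = ‖f‖ ^ 2 := by
  rw [← real_inner_self_eq_norm_sq, L2.inner_def]
  refine integral_congr_ae (Filter.Eventually.of_forall fun y => ?_)
  simp [sq]

theorem normSqLe_of {u : Fin 2 → L2} {θ : L2} {X Y : ℝ} (hu : ∀ i, ‖u i‖ ≤ X) (hθ : ‖θ‖ ≤ Y) :
    NormSqLe (fun i => (u i : T2 → ℝ)) (θ : T2 → ℝ) (2 * X ^ 2 + Y ^ 2) := by
  have hX : 0 ≤ X := (norm_nonneg _).trans (hu 0)
  have hY : 0 ≤ Y := (norm_nonneg _).trans hθ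
  unfold NormSqLe
  rw [integral_add (Lp.memLp (u 0)).integrable_sq (Lp.memLp (u 1)).integrable_sq, int_sq, int_sq,
    int_sq]
  have h1 := pow_le_pow_left₀ (norm_nonneg _) (hu 0) 2
  have h2 := pow_le_pow_left₀ (norm_nonneg _) (hu 1) 2
  have h3 := pow_le_pow_left₀ (norm_nonneg _) hθ 2
  linarith

end Pool.Agent.V1183.BQ
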