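import Mathlib
import Pool.Agent.V1183.BQ.Stm

/-!
Fourier analysis of real square integrable functions on the torus.
-/

open MeasureTheory Set Filter Topology ComplexConjugate
open scoped InnerProductSpace

namespace Pool.Agent.V1183.BQ

theorem ek_cont (k : Fin 2 → ℤ) : Continuous (ek k) := (UnitAddTorus.mFourier k).continuous

theorem ek_neg (k : Fin 2 → ℤ) (y : T2) : ek (-k) y = conj (ek k y) := UnitAddTorus.mFourier_neg

theorem ek_add (k l : Fin 2 → ℤ) (y : T2) : ek (k + l) y = ek k y * ek l y :=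
  UnitAddTorus.mFourier_add

theorem ek_zero (y : T2) : ek 0 y = 1 := by
  unfold ek
  rw [UnitAddTorus.mFourier_zero]
  rfl

theorem ek_norm_le (k : Fin 2 → ℤ) (y : T2) : ‖ek k y‖ ≤ 1 := by
  have h := (UnitAddTorus.mFourier k).norm_coe_le_norm y
  rw [UnitAddTorus.mFourier_norm] at h
  exact h

/-- Hilbert basis of exponentials. -/
noncomputable def fb : HilbertBasis (Fin 2 → ℤ) ℂ (Lp ℂ 2 mu) := UnitAddTorus.mFourierBasis

theorem fb_repr (F : Lp ℂ 2 mu) (k : Fin 2 → ℤ) : fb.repr F k = ∫ y, F y * ek (-k) y ∂mu := by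
  have h : fb.repr F k = ∫ y, UnitAddTorus.mFourier (-k) y • F y ∂mu :=
    UnitAddTorus.mFourierBasis_repr F k
  rw [h]
  refine integral_congr_ae (Filter.Eventually.of_forall fun y => ?_)
  show UnitAddTorus.mFourier (-k) y • F y = F y * UnitAddTorus.mFourier (-k) y
  rw [smul_eq_mul, mul_comm]

theorem memLp_ofReal (f : L2) : MemLp (fun y => (f y : ℂ)) 2 mu :=
  (Lp.memLp f).ofReal

theorem memLp_mul_ek (f : L2) (k : Fin 2 → ℤ) : MemLp (fun y => (f y : ℂ) * ek k y) 2 mu := by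
  refine MemLp.of_le (g := fun y => (f y : ℂ)) (memLp_ofReal f)
    ((memLp_ofReal f).aestronglyMeasurable.mul (ek_cont k).aestronglyMeasurable) ?_
  refine Filter.Eventually.of_forall fun y => ?_
  rw [norm_mul]
  exact mul_le_of_le_one_right (norm_nonneg _) (ek_norm_le k y)

theorem int_mul_ek (f : L2) (k : Fin 2 → ℤ) : Integrable (fun y => (f y : ℂ) * ek k y) mu :=
  (memLp_mul_ek f k).integrable (by norm_num)

theorem int_mul_mul_ek (f g : L2) (k : Fin 2 → ℤ) :
    Integrable (fun y => (f y : ℂ) * (g y : ℂ) * ek k y) mu := by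
  have := (memLp_ofReal f).integrable_mul (memLp_mul_ek g k)
  refine this.congr (Filter.Eventually.of_forall fun y => ?_)
  simp only [Pi.mul_apply]
  ring

theorem fc_neg (f : L2) (k : Fin 2 → ℤ) : fc f (-k) = conj (fc f k) := by
  unfold fc
  rw [← integral_conj]
  refine integral_congr_ae (Filter.Eventually.of_forall fun y => ?_)
  simp only [map_mul, Complex.conj_ofReal, neg_neg]
  rw [ek_neg, Complex.conj_conj]

theorem int_ek (f : L2) (k : Fin 2 → ℤ) : ∫ y, (f y : ℂ) * ek k y ∂mu = fc f (-k) := by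
  unfold fc; rw [neg_neg]

/-- Parseval with an exponential -/
theorem hasSum_mul (f g : L2) (k : Fin 2 → ℤ) :
    HasSum (fun l => fc f l * fc g (k - l)) (∫ y, (f y : ℂ) * (g y : ℂ) * ek (-k) y ∂mu) := by
  set F : Lp ℂ 2 mu := (memLp_ofReal f).toLp with hF
  set G : Lp ℂ 2 mu := (memLp_mul_ek g (-k)).toLp with hG
  have hF1 : F =ᵐ[mu] fun y => (f y : ℂ) := (memLp_ofReal f).coeFn_toLp
  have hG1 : G =ᵐ[mu] fun y => (g y : ℂ) * ek (-k) y := (memLp_mul_ek g (-k)).coeFn_toLp
  have h := fb.hasSum_inner_mul_inner F G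
  have hFr : ∀ l, ⟪F, fb l⟫_ℂ = conj (fc f l) := by
    intro l
    rw [← inner_conj_symm, ← HilbertBasis.repr_apply_apply, fb_repr]
    congr 1
    unfold fc
    refine integral_congr_ae ?_
    filter_upwards [hF1] with y hy
    rw [hy]
  have hGr : ∀ l, ⟪fb l, G⟫_ℂ = fc g (k + l) := by
    intro l
    rw [← HilbertBasis.repr_apply_apply, fb_repr]
    unfold fc
    refine integral_congr_ae ?_
    filter_upwards [hG1] with y hy
    rw [hy, mul_assoc, ← ek_add]
    congr 2
    abel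
  have hFG : ⟪F, G⟫_ℂ = ∫ y, (f y : ℂ) * (g y : ℂ) * ek (-k) y ∂mu := by
    rw [L2.inner_def]
    refine integral_congr_ae ?_
    filter_upwards [hF1, hG1] with y hy1 hy2
    rw [hy1, hy2]
    simp only [RCLike.inner_apply, Complex.conj_ofReal]
    ring
  rw [hFG] at h
  have h2 : HasSum (fun l => ⟪F, fb (-l)⟫_ℂ * ⟪fb (-l), G⟫_ℂ)
      (∫ y, (f y : ℂ) * (g y : ℂ) * ek (-k) y ∂mu) :=
    (Equiv.neg (Fin 2 → ℤ)).hasSum_iff.mpr h
  refine h2.congr_fun (fun l => ?_)
  rw [hFr, hGr, ← fc_neg, neg_neg, ← sub_eq_add_neg]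

theorem hasSum_inner (f g : L2) :
    HasSum (fun l => fc f l * fc g (-l)) ((⟪f, g⟫_ℝ : ℝ) : ℂ) := by
  have h := hasSum_mul f g 0
  simp only [zero_sub] at h
  have e : (∫ y, (f y : ℂ) * (g y : ℂ) * ek (-0) y ∂mu) = ((⟪f, g⟫_ℝ : ℝ) : ℂ) := by
    rw [L2.inner_def, ← integral_complex_ofReal]
    refine integral_congr_ae (Filter.Eventually.of_forall fun y => ?_)
    simp only [neg_zero, ek_zero, mul_one]
    rw [← Complex.ofReal_mul]
    congr 1
    simp [mul_comm]
  rwa [e] at h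

theorem hasSum_norm_sq (f : L2) : HasSum (fun l => ‖fc f l‖ ^ 2) (‖f‖ ^ 2) := by
  have h := hasSum_inner f f
  rw [real_inner_self_eq_norm_sq] at h
  have h2 : HasSum (fun l => ((‖fc f l‖ ^ 2 : ℝ) : ℂ)) ((‖f‖ ^ 2 : ℝ) : ℂ) := by
    refine h.congr_fun (fun l => ?_)
    rw [fc_neg, Complex.mul_conj, Complex.normSq_eq_norm_sq]
  exact_mod_cast h2

theorem fc_sub (f g : L2) (k : Fin 2 → ℤ) : fc (f - g) k = fc f k - fc g k := by
  unfold fc
  rw [← integral_sub (int_mul_ek f (-k)) (int_mul_ek g (-k))]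
  refine integral_congr_ae ?_
  filter_upwards [Lp.coeFn_sub f g] with y hy
  rw [hy, Pi.sub_apply]
  push_cast
  ring

theorem ext_fc {f g : L2} (h : ∀ k, fc f k = fc g k) : f = g := by
  have h1 := hasSum_norm_sq (f - g)
  have h2 : ∀ l, ‖fc (f - g) l‖ ^ 2 = 0 := by
    intro l
    rw [fc_sub, h, sub_self]
    simp
  simp only [h2] at h1
  have h3 := h1.unique hasSum_zero
  have h4 : ‖f - g‖ = 0 := by
    exact pow_eq_zero_iff (two_ne_zero) |>.mp h3
  exact sub_eq_zero.mp (norm_eq_zero.mp h4)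

/-- Riesz-Fischer for real functions -/
theorem exists_fn {c : (Fin 2 → ℤ) → ℂ} (hc : ∀ k, c (-k) = conj (c k)) {Y : ℝ} (hY : 0 ≤ Y)
    (hs : ∀ K : Finset (Fin 2 → ℤ), ∑ k ∈ K, ‖c k‖ ^ 2 ≤ Y ^ 2) :
    ∃ f : L2, (∀ k, fc f k = c k) ∧ ‖f‖ ≤ Y := by
  have hsum : Summable fun k => ‖c k‖ ^ 2 := summable_of_sum_le (fun _ => by positivity) hs
  have hmem : Memℓp c 2 := by
    rw [memℓp_gen_iff (by norm_num)]
    simpa using hsum
  set C : lp (fun _ : Fin 2 → ℤ => ℂ) 2 := ⟨c, hmem⟩ with hC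
  set F : Lp ℂ 2 mu := fb.repr.symm C with hF
  have hFk : ∀ k, ∫ y, F y * ek (-k) y ∂mu = c k := by
    intro k
    rw [← fb_repr, hF, LinearIsometryEquiv.apply_symm_apply]
  have hmR : MemLp (fun y => (F y).re) 2 mu := (Lp.memLp F).re
  set f : L2 := hmR.toLp with hf
  have hf1 : f =ᵐ[mu] fun y => (F y).re := hmR.coeFn_toLp
  have hmE : ∀ k, Integrable (fun y => F y * ek k y) mu := by
    intro k
    have h1 : MemLp (fun y => F y * ek k y) 2 mu := by
      refine MemLp.of_le (g := fun y => F y) (Lp.memLp F)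
        ((Lp.memLp F).aestronglyMeasurable.mul (ek_cont k).aestronglyMeasurable) ?_
      refine Filter.Eventually.of_forall fun y => ?_
      rw [norm_mul]
      exact mul_le_of_le_one_right (norm_nonneg _) (ek_norm_le k y)
    exact h1.integrable (by norm_num)
  have hfc : ∀ k, fc f k = c k := by
    intro k
    have e1 : fc f k = ∫ y, (1 / 2 : ℂ) * (F y * ek (-k) y + conj (F y * ek k y)) ∂mu := by
      unfold fc
      refine integral_congr_ae ?_
      filter_upwards [hf1] with y hy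
      rw [hy, map_mul, ← ek_neg, Complex.re_eq_add_conj]
      ring
    rw [e1, integral_const_mul, integral_add (hmE _) (by
      have := (hmE k)
      exact (Complex.conjCLE : ℂ →L[ℝ] ℂ).integrable_comp this), integral_conj, hFk]
    have e2 : ∫ y, F y * ek k y ∂mu = c (-k) := by
      have := hFk (-k)
      rwa [neg_neg] at this
    rw [e2, hc, Complex.conj_conj]
    ring
  refine ⟨f, hfc, ?_⟩
  have h1 := hasSum_norm_sq f
  simp only [hfc] at h1
  have h2 : ‖f‖ ^ 2 ≤ Y ^ 2 := hasSum_le_of_sum_le h1 hs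
  exact (pow_le_pow_iff_left₀ (norm_nonneg _) hY two_ne_zero).mp h2

theorem sum_fc_le (f : L2) (K : Finset (Fin 2 → ℤ)) : ∑ k ∈ K, ‖fc f k‖ ^ 2 ≤ ‖f‖ ^ 2 :=
  sum_le_hasSum K (fun _ _ => by positivity) (hasSum_norm_sq f)

/-- weak continuity from continuity of the modes -/
theorem weak_cont {f : ℝ → L2} {Y : ℝ} (hY : 0 ≤ Y) (hf : ∀ t, ‖f t‖ ≤ Y)
    (hc : ∀ k, Continuous fun t => fc (f t) k) (φ : L2) :
    Continuous fun t => ⟪f t, φ⟫_ℝ := by
  have key : TendstoUniformly (fun (K : Finset (Fin 2 → ℤ)) t =>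
      (∑ l ∈ K, fc (f t) l * fc φ (-l)).re) (fun t => ⟪f t, φ⟫_ℝ) atTop := by
    rw [Metric.tendstoUniformly_iff]
    intro ε hε
    have hs : Summable fun l => ‖fc φ (-l)‖ ^ 2 :=
      (Equiv.neg (Fin 2 → ℤ)).summable_iff.mpr (hasSum_norm_sq φ).summable
    obtain ⟨K0, hK0⟩ := (summable_iff_vanishing_norm.mp hs) ((ε / (2 * (Y + 1))) ^ 2)
      (by positivity)
    filter_upwards [eventually_ge_atTop K0] with K hK t
    have h1 := hasSum_inner (f t) φ
    have h2 : ‖((⟪f t, φ⟫_ℝ : ℝ) : ℂ) - ∑ l ∈ K, fc (f t) l * fc φ (-l)‖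
        ≤ Y * (ε / (2 * (Y + 1))) := by
      refine le_of_tendsto (h1.sub_const _).norm ?_
      filter_upwards [eventually_ge_atTop K] with K' hK'
      classical
      rw [← Finset.sum_sdiff hK', add_sub_cancel_right]
      refine (norm_sum_le _ _).trans ?_
      simp only [norm_mul]
      refine (Real.sum_mul_le_sqrt_mul_sqrt (K' \ K) (fun l => ‖fc (f t) l‖)
        (fun l => ‖fc φ (-l)‖)).trans ?_
      refine mul_le_mul ?_ ?_ (Real.sqrt_nonneg _) hY
      · rw [Real.sqrt_le_left hY]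
        exact (sum_fc_le (f t) _).trans (pow_le_pow_left₀ (norm_nonneg _) (hf t) 2)
      · rw [Real.sqrt_le_left (by positivity)]
        have h3 := hK0 (K' \ K) (Finset.disjoint_of_subset_right hK Finset.sdiff_disjoint)
        rw [Real.norm_eq_abs] at h3
        exact (le_abs_self _).trans h3.le
    rw [Real.dist_eq]
    have h4 : |⟪f t, φ⟫_ℝ - (∑ l ∈ K, fc (f t) l * fc φ (-l)).re|
        ≤ ‖((⟪f t, φ⟫_ℝ : ℝ) : ℂ) - ∑ l ∈ K, fc (f t) l * fc φ (-l)‖ := by
      refine le_trans (le_of_eq ?_) (Complex.abs_re_le_norm _)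
      rw [Complex.sub_re, Complex.ofReal_re]
    have h5 : Y * (ε / (2 * (Y + 1))) < ε := by
      have : Y * (ε / (2 * (Y + 1))) = ε * (Y / (2 * (Y + 1))) := by ring
      rw [this]
      have h6 : Y / (2 * (Y + 1)) < 1 := by
        rw [div_lt_one (by positivity)]
        linarith
      calc ε * (Y / (2 * (Y + 1))) < ε * 1 := mul_lt_mul_of_pos_left h6 hε
        _ = ε := mul_one _
    linarith
  refine key.continuous (Filter.Eventually.frequently (Filter.Eventually.of_forall fun K => ?_))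
  exact Complex.continuous_re.comp
    (continuous_finsetSum _ fun l _ => (hc l).mul continuous_const)

end Pool.Agent.V1183.BQ
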