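import Mathlib

/-!
Algebra of the Fourier-Galerkin systems.
-/

open Finset ComplexConjugate

namespace Pool.Agent.V1183.BQ

abbrev Z2 := Fin 2 → ℤ

/-- cross product -/
def cr (l k : Z2) : ℝ := l 0 * k 1 - l 1 * k 0
/-- dot product -/
def dt (l k : Z2) : ℝ := l 0 * k 0 + l 1 * k 1
/-- length -/
noncomputable def nm (k : Z2) : ℝ := Real.sqrt (dt k k)

theorem dt_self_nonneg (k : Z2) : 0 ≤ dt k k := by
  unfold dt
  nlinarith [sq_nonneg (k 0 : ℝ), sq_nonneg (k 1 : ℝ)]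

theorem nm_nonneg (k : Z2) : 0 ≤ nm k := Real.sqrt_nonneg _

theorem nm_sq (k : Z2) : nm k ^ 2 = dt k k := Real.sq_sqrt (dt_self_nonneg k)

theorem nm_neg (k : Z2) : nm (-k) = nm k := by
  unfold nm dt
  congr 1
  simp only [Pi.neg_apply]
  push_cast
  ring

theorem one_le_dt {k : Z2} (hk : k ≠ 0) : 1 ≤ dt k k := by
  have h : 1 ≤ k 0 * k 0 + k 1 * k 1 := by
    by_contra hcon
    push Not at hcon
    have h0 : k 0 * k 0 + k 1 * k 1 ≤ 0 := by omega
    have e0 : k 0 = 0 := by nlinarith [sq_nonneg (k 0), sq_nonneg (k 1)]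
    have e1 : k 1 = 0 := by nlinarith [sq_nonneg (k 0), sq_nonneg (k 1)]
    exact hk (by ext i; fin_cases i <;> simp [e0, e1])
  unfold dt
  exact_mod_cast h

theorem one_le_nm {k : Z2} (hk : k ≠ 0) : 1 ≤ nm k := by
  unfold nm
  rw [Real.one_le_sqrt]
  exact one_le_dt hk

theorem nm_pos {k : Z2} (hk : k ≠ 0) : 0 < nm k := lt_of_lt_of_le one_pos (one_le_nm hk)

theorem nm_zero : nm 0 = 0 := by simp [nm, dt]

theorem cr_sq_add (l k : Z2) : cr l k ^ 2 + dt l k ^ 2 = nm l ^ 2 * nm k ^ 2 := by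
  rw [nm_sq, nm_sq]
  unfold cr dt
  ring

theorem abs_cr_le (l k : Z2) : |cr l k| ≤ nm l * nm k := by
  apply abs_le_of_sq_le_sq _ (mul_nonneg (nm_nonneg _) (nm_nonneg _))
  rw [mul_pow]
  nlinarith [cr_sq_add l k, sq_nonneg (dt l k)]

theorem abs_dt_le (l k : Z2) : |dt l k| ≤ nm l * nm k := by
  apply abs_le_of_sq_le_sq _ (mul_nonneg (nm_nonneg _) (nm_nonneg _))
  rw [mul_pow]
  nlinarith [cr_sq_add l k, sq_nonneg (cr l k)]

/-- kernel of the temperature transport -/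
noncomputable def qt (κ : ℝ) (l k : Z2) : ℝ := κ * cr l k / nm l
/-- kernel of the velocity transport -/
noncomputable def qa (κ : ℝ) (l k : Z2) : ℝ :=
  κ * cr l k * dt (k - l) k / (nm l * nm (k - l) * nm k)

theorem cr_neg_sub (l k : Z2) : cr (-l) (k - l) = - cr l k := by
  unfold cr
  simp only [Pi.neg_apply, Pi.sub_apply]
  push_cast
  ring

theorem dt_comm (l k : Z2) : dt l k = dt k l := by unfold dt; ring

theorem dt_neg_neg (l k : Z2) : dt (-l) (-k) = dt l k := by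
  unfold dt
  simp only [Pi.neg_apply]
  push_cast
  ring

theorem cr_neg_neg (l k : Z2) : cr (-l) (-k) = cr l k := by
  unfold cr
  simp only [Pi.neg_apply]
  push_cast
  ring

theorem qt_anti (κ : ℝ) (l k : Z2) : qt κ (-l) (k - l) = - qt κ l k := by
  unfold qt
  rw [cr_neg_sub, nm_neg]
  ring

theorem qa_anti (κ : ℝ) (l k : Z2) : qa κ (-l) (k - l) = - qa κ l k := by
  unfold qa
  rw [cr_neg_sub, nm_neg]
  have h1 : k - l - -l = k := by abel
  rw [h1, dt_comm k (k - l)]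
  ring

theorem qt_even (κ : ℝ) (l k : Z2) : qt κ (-l) (-k) = qt κ l k := by
  unfold qt
  rw [cr_neg_neg, nm_neg]

theorem qa_even (κ : ℝ) (l k : Z2) : qa κ (-l) (-k) = qa κ l k := by
  unfold qa
  have h1 : -k - -l = -(k - l) := by abel
  rw [cr_neg_neg, h1, dt_neg_neg, nm_neg, nm_neg, nm_neg]

theorem abs_qt_le {κ : ℝ} (hκ : 0 ≤ κ) (l k : Z2) : |qt κ l k| ≤ κ * nm k := by
  unfold qt
  rw [abs_div, abs_mul, abs_of_nonneg hκ, abs_of_nonneg (nm_nonneg l)]
  rcases (nm_nonneg l).eq_or_lt with h | h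
  · rw [← h, div_zero]
    exact mul_nonneg hκ (nm_nonneg _)
  · rw [div_le_iff₀ h]
    nlinarith [mul_le_mul_of_nonneg_left (abs_cr_le l k) hκ]

theorem abs_qa_le {κ : ℝ} (hκ : 0 ≤ κ) (l k : Z2) : |qa κ l k| ≤ κ * nm k := by
  have h1 : qa κ l k = qt κ l k * (dt (k - l) k / (nm (k - l) * nm k)) := by
    unfold qa qt
    rw [div_mul_div_comm]
    congr 1
    ring
  have h2 : |dt (k - l) k / (nm (k - l) * nm k)| ≤ 1 := by
    rw [abs_div, abs_of_nonneg (mul_nonneg (nm_nonneg (k - l)) (nm_nonneg k))]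
    exact div_le_one_of_le₀ (abs_dt_le _ _) (mul_nonneg (nm_nonneg (k - l)) (nm_nonneg k))
  rw [h1, abs_mul]
  calc |qt κ l k| * |dt (k - l) k / (nm (k - l) * nm k)| ≤ (κ * nm k) * 1 :=
        mul_le_mul (abs_qt_le hκ l k) h2 (abs_nonneg _) (mul_nonneg hκ (nm_nonneg _))
    _ = κ * nm k := mul_one _

/-- truncated bilinear term -/
noncomputable def Nl (q : Z2 → Z2 → ℝ) (K : Finset Z2) (a b : Z2 → ℂ) (k : Z2) : ℂ :=
  ∑ l ∈ K, (q l k : ℂ) * a l * b (k - l)

theorem Nl_conj {q : Z2 → Z2 → ℝ} (hq : ∀ l k, q (-l) (-k) = q l k) {K : Finset Z2}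
    (hK : ∀ l ∈ K, -l ∈ K) {a b : Z2 → ℂ} (ha : ∀ k, a (-k) = conj (a k))
    (hb : ∀ k, b (-k) = conj (b k)) (k : Z2) : Nl q K a b (-k) = conj (Nl q K a b k) := by
  unfold Nl
  rw [map_sum]
  refine Finset.sum_nbij' (fun l => -l) (fun l => -l) (fun l hl => hK l hl)
    (fun l hl => hK l hl) (fun l _ => neg_neg l) (fun l _ => neg_neg l) ?_
  intro l _
  have h1 : -k - l = -(k - -l) := by abel
  have h2 := hq (-l) k
  rw [neg_neg] at h2
  have h3 := ha (-l)
  rw [neg_neg] at h3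
  rw [map_mul, map_mul, Complex.conj_ofReal, h1, hb, h3, ← h2]

theorem Nl_anti {q : Z2 → Z2 → ℝ} (hq : ∀ l k, q (-l) (k - l) = - q l k) {K : Finset Z2}
    (hK : ∀ l ∈ K, -l ∈ K) {a b : Z2 → ℂ} (ha : ∀ k, a (-k) = conj (a k))
    (hb : ∀ k, k ∉ K → b k = 0) :
    (∑ k ∈ K, conj (b k) * Nl q K a b k).re = 0 := by
  classical
  set F := (K ×ˢ K).filter (fun p => p.1 - p.2 ∈ K) with hF
  have hS : ∑ k ∈ K, conj (b k) * Nl q K a b k
      = ∑ p ∈ F, (q p.2 p.1 : ℂ) * a p.2 * b (p.1 - p.2) * conj (b p.1) := by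
    rw [hF, Finset.sum_filter, Finset.sum_product]
    refine Finset.sum_congr rfl (fun k _ => ?_)
    unfold Nl
    rw [Finset.mul_sum]
    refine Finset.sum_congr rfl (fun l _ => ?_)
    split_ifs with h
    · ring
    · rw [hb _ h]; ring
  have hC : conj (∑ k ∈ K, conj (b k) * Nl q K a b k)
      = - ∑ k ∈ K, conj (b k) * Nl q K a b k := by
    rw [hS, map_sum, ← Finset.sum_neg_distrib]
    refine Finset.sum_nbij' (fun p => (p.1 - p.2, -p.2)) (fun p => (p.1 - p.2, -p.2))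
      ?_ ?_ ?_ ?_ ?_
    · rintro ⟨k, l⟩ hp
      simp only [hF, mem_filter, mem_product] at hp ⊢
      refine ⟨⟨hp.2, hK _ hp.1.2⟩, ?_⟩
      have : k - l - -l = k := by abel
      rw [this]; exact hp.1.1
    · rintro ⟨k, l⟩ hp
      simp only [hF, mem_filter, mem_product] at hp ⊢
      refine ⟨⟨hp.2, hK _ hp.1.2⟩, ?_⟩
      have : k - l - -l = k := by abel
      rw [this]; exact hp.1.1
    · rintro ⟨k, l⟩ _
      simp only [Prod.mk.injEq]
      exact ⟨by abel, by abel⟩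
    · rintro ⟨k, l⟩ _
      simp only [Prod.mk.injEq]
      exact ⟨by abel, by abel⟩
    · rintro ⟨k, l⟩ _
      simp only [map_mul, Complex.conj_ofReal, Complex.conj_conj]
      have h1 : k - l - -l = k := by abel
      rw [h1, hq, ha]
      push_cast
      ring
  have h := congrArg Complex.re hC
  rw [Complex.conj_re, Complex.neg_re] at h
  linarith

/-- the box -/
noncomputable def box (N : ℕ) : Finset Z2 := Fintype.piFinset (fun _ => Finset.Icc (-(N : ℤ)) N)

theorem mem_box {N : ℕ} {k : Z2} : k ∈ box N ↔ ∀ i, -(N : ℤ) ≤ k i ∧ k i ≤ N := by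
  simp [box]

/-- nonzero modes -/
noncomputable def KN (N : ℕ) : Finset Z2 := (box N).erase 0

theorem mem_KN {N : ℕ} {k : Z2} : k ∈ KN N ↔ k ≠ 0 ∧ ∀ i, -(N : ℤ) ≤ k i ∧ k i ≤ N := by
  simp [KN, mem_box]

theorem KN_neg {N : ℕ} : ∀ l ∈ KN N, -l ∈ KN N := by
  intro l hl
  rw [mem_KN] at hl ⊢
  refine ⟨neg_ne_zero.mpr hl.1, fun i => ?_⟩
  have := hl.2 i
  simp only [Pi.neg_apply]
  constructor <;> linarith [this.1, this.2]

/-- half lattice -/
def pos (k : Z2) : Prop := 0 < k 0 ∨ (k 0 = 0 ∧ 0 < k 1)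

instance : DecidablePred pos := fun k => by unfold pos; infer_instance

theorem pos_or {k : Z2} (hk : k ≠ 0) : pos k ∨ pos (-k) := by
  unfold pos
  simp only [Pi.neg_apply]
  by_contra hcon
  push Not at hcon
  apply hk
  have e0 : k 0 = 0 := by omega
  have e1 : k 1 = 0 := by
    have h1 := hcon.1.2 e0
    have h2 := hcon.2.2 (by omega)
    omega
  ext i
  fin_cases i <;> simp [e0, e1]

theorem pos_neg {k : Z2} (hk : pos k) : ¬ pos (-k) := by
  unfold pos at *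
  simp only [Pi.neg_apply]
  omega

/-- positive modes -/
noncomputable def SN (N : ℕ) : Finset Z2 := (KN N).filter pos

theorem mem_SN {N : ℕ} {k : Z2} : k ∈ SN N ↔ k ∈ KN N ∧ pos k := by simp [SN]

theorem sum_KN {M : Type*} [AddCommMonoid M] (N : ℕ) (F : Z2 → M) :
    ∑ k ∈ KN N, F k = ∑ k ∈ SN N, (F k + F (-k)) := by
  classical
  rw [← Finset.sum_filter_add_sum_filter_not (KN N) pos, Finset.sum_add_distrib]
  congr 1
  refine Finset.sum_nbij' (fun l => -l) (fun l => -l) ?_ ?_ (fun l _ => neg_neg l)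
    (fun l _ => neg_neg l) (fun l _ => by rw [neg_neg])
  · intro k hk
    rw [mem_filter] at hk
    rw [mem_SN]
    refine ⟨KN_neg _ hk.1, ?_⟩
    rcases pos_or (mem_KN.mp hk.1).1 with h | h
    · exact absurd h hk.2
    · exact h
  · intro k hk
    rw [mem_SN] at hk
    rw [mem_filter]
    exact ⟨KN_neg _ hk.1, pos_neg hk.2⟩

/-- extension of the half coefficients -/
noncomputable def ext (N : ℕ) (c : SN N → ℂ) (k : Z2) : ℂ :=
  if h : k ∈ SN N then c ⟨k, h⟩ else if h : -k ∈ SN N then conj (c ⟨-k, h⟩) else 0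

theorem ext_pos {N : ℕ} (c : SN N → ℂ) {k : Z2} (h : k ∈ SN N) : ext N c k = c ⟨k, h⟩ := by
  simp [ext, h]

theorem ext_neg {N : ℕ} (c : SN N → ℂ) (k : Z2) : ext N c (-k) = conj (ext N c k) := by
  unfold ext
  by_cases h1 : k ∈ SN N
  · have h2 : -k ∉ SN N := fun h => pos_neg (mem_SN.mp h1).2 (mem_SN.mp h).2
    simp only [h1, h2, dif_pos, dif_neg, not_false_eq_true, neg_neg]
  · by_cases h2 : -k ∈ SN N
    · simp only [h1, h2, dif_pos, dif_neg, not_false_eq_true, Complex.conj_conj]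
    · simp only [h1, h2, dif_neg, not_false_eq_true, neg_neg, map_zero]

theorem ext_supp {N : ℕ} (c : SN N → ℂ) {k : Z2} (h : k ∉ KN N) : ext N c k = 0 := by
  unfold ext
  have h1 : k ∉ SN N := fun h' => h (mem_SN.mp h').1
  have h2 : -k ∉ SN N := fun h' => h (by simpa using KN_neg _ (mem_SN.mp h').1)
  simp [h1, h2]

/-- every symmetric family supported in `KN N` is an extension -/
theorem ext_restrict {N : ℕ} {a : Z2 → ℂ} (ha : ∀ k, a (-k) = conj (a k))
    (hs : ∀ k, k ∉ KN N → a k = 0) : ext N (fun k => a k) = a := by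
  funext k
  by_cases h1 : k ∈ SN N
  · rw [ext_pos _ h1]
  · by_cases h2 : -k ∈ SN N
    · have := ext_neg (fun k : SN N => a k) (-k)
      rw [neg_neg] at this
      rw [this, ext_pos _ h2, ha, Complex.conj_conj]
    · rw [hs k (fun h => by
        rcases pos_or (mem_KN.mp h).1 with hp | hp
        · exact h1 (mem_SN.mpr ⟨h, hp⟩)
        · exact h2 (mem_SN.mpr ⟨KN_neg _ h, hp⟩))]
      unfold ext
      simp [h1, h2]

end Pool.Agent.V1183.BQ
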