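import Mathlib
import Pool.Agent.Helper133.Brouwer

/-!
Norm preserving maps homotopic to the identity through norm preserving maps are onto spheres.
-/

open Set Metric Filter Topology

namespace Pool.Agent.V1183.BQ

variable {E : Type*} [NormedAddCommGroup E] [NormedSpace ℝ E] [FiniteDimensional ℝ E]

/-- A continuous map of the ball of radius `R`, equal to the identity on its boundary, is onto. -/
theorem onto_ball {R : ℝ} (hR : 0 < R) (P : E → E) (hP : ContinuousOn P (closedBall 0 R))
    (hb : ∀ x, ‖x‖ = R → P x = x) (y : E) (hy : ‖y‖ < R) : ∃ x, ‖x‖ ≤ R ∧ P x = y := by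
  by_contra hcon
  push Not at hcon
  -- radial retraction
  let ret : E → E := fun x => (R / max R ‖x‖) • x
  have hmax : ∀ x : E, 0 < max R ‖x‖ := fun x => lt_max_of_lt_left hR
  have hretc : Continuous ret := by
    refine Continuous.smul ?_ continuous_id
    exact continuous_const.div (continuous_const.max continuous_norm) (fun x => (hmax x).ne')
  have hretn : ∀ x, ‖ret x‖ ≤ R := by
    intro x
    simp only [ret, norm_smul, Real.norm_eq_abs, abs_of_pos (div_pos hR (hmax x))]
    rw [div_mul_eq_mul_div, div_le_iff₀ (hmax x)]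
    exact mul_le_mul_of_nonneg_left (le_max_right _ _) hR.le
  have hret1 : ∀ x, ‖x‖ ≤ R → ret x = x := by
    intro x hx
    simp only [ret, max_eq_left hx, div_self hR.ne', one_smul]
  have hne : ∀ x, P (ret x) - y ≠ 0 := fun x => sub_ne_zero.mpr (hcon _ (hretn x))
  let f : E → E := fun x => -((R / ‖P (ret x) - y‖) • (P (ret x) - y))
  have hPc : Continuous fun x => P (ret x) :=
    hP.comp_continuous hretc (fun x => by simpa using hretn x)
  have hfc : Continuous f := by
    refine Continuous.neg (Continuous.smul ?_ (hPc.sub continuous_const))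
    exact continuous_const.div (hPc.sub continuous_const).norm
      (fun x => norm_ne_zero_iff.mpr (hne x))
  have hfn : ∀ x, ‖f x‖ = R := by
    intro x
    have h0 : 0 < ‖P (ret x) - y‖ := norm_pos_iff.mpr (hne x)
    simp only [f, norm_neg, norm_smul, Real.norm_eq_abs, abs_of_pos (div_pos hR h0)]
    field_simp
  obtain ⟨x, hx⟩ := Pool.Agent.Helper133.Brouwer.brouwer f hfc R (fun x => (hfn x).le)
  have hxn : ‖x‖ = R := by rw [← hx]; exact hfn x
  have hrx : ret x = x := hret1 x hxn.le
  have h0 : 0 < ‖x - y‖ := by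
    have := hne x
    rw [hrx, hb x hxn] at this
    exact norm_pos_iff.mpr this
  have hfx : f x = -((R / ‖x - y‖) • (x - y)) := by
    simp only [f, hrx, hb x hxn]
  rw [hfx] at hx
  -- x (1 + R/|x-y|) = (R/|x-y|) y
  set c := R / ‖x - y‖ with hc
  have hc0 : 0 < c := div_pos hR h0
  have h1 : (1 + c) • x = c • y := by
    have : x = -(c • (x - y)) := hx.symm
    calc (1 + c) • x = x + c • x := by rw [add_smul, one_smul]
      _ = -(c • (x - y)) + c • x := by rw [← this]
      _ = c • y := by rw [smul_sub]; abel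
  have h2 := congrArg norm h1
  rw [norm_smul, norm_smul, Real.norm_eq_abs, Real.norm_eq_abs, abs_of_pos hc0,
    abs_of_pos (by linarith), hxn] at h2
  nlinarith

theorem surj_of_homotopy {r : ℝ} (hr : 0 < r) (Hm : ℝ → E → E)
    (hc : ContinuousOn (fun p : ℝ × E => Hm p.1 p.2) (Icc (0:ℝ) 1 ×ˢ sphere (0:E) r))
    (h0 : ∀ x, ‖x‖ = r → Hm 0 x = x)
    (hn : ∀ s ∈ Icc (0:ℝ) 1, ∀ x, ‖x‖ = r → ‖Hm s x‖ = r) (y : E) (hy : ‖y‖ = r) :
    ∃ x, ‖x‖ = r ∧ Hm 1 x = y := by
  let cl : ℝ → ℝ := fun s => max 0 (min 1 s)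
  have hcl : ∀ s, cl s ∈ Icc (0:ℝ) 1 := fun s =>
    ⟨le_max_left _ _, max_le zero_le_one (min_le_left _ _)⟩
  have hclc : Continuous cl := continuous_const.max (continuous_const.min continuous_id)
  let P : E → E := fun x => (‖x‖ / r) • Hm (cl (2 - ‖x‖ / r)) ((r / ‖x‖) • x)
  have hnu : ∀ x : E, x ≠ 0 → ‖(r / ‖x‖) • x‖ = r := by
    intro x hx
    have : 0 < ‖x‖ := norm_pos_iff.mpr hx
    rw [norm_smul, Real.norm_eq_abs, abs_of_pos (div_pos hr this)]
    field_simp
  have hPn : ∀ x, ‖P x‖ = ‖x‖ := by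
    intro x
    by_cases hx : x = 0
    · simp [P, hx]
    · have hx0 : 0 < ‖x‖ := norm_pos_iff.mpr hx
      simp only [P]
      rw [norm_smul, hn _ (hcl _) _ (hnu x hx), Real.norm_eq_abs, abs_of_pos (div_pos hx0 hr)]
      field_simp
  have hPc : Continuous P := by
    rw [continuous_iff_continuousAt]
    intro x
    by_cases hx : x = 0
    · subst hx
      have hP0 : P 0 = 0 := by
        have := hPn 0
        rwa [norm_zero, norm_eq_zero] at this
      rw [ContinuousAt, hP0]
      rw [tendsto_zero_iff_norm_tendsto_zero]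
      simp only [hPn]
      have : Tendsto (fun x : E => ‖x‖) (𝓝 0) (𝓝 ‖(0:E)‖) := continuous_norm.tendsto 0
      rwa [norm_zero] at this
    · have hopen : {z : E | z ≠ 0} ∈ 𝓝 x := isOpen_ne.mem_nhds hx
      have hmap : ContinuousOn (fun z : E => (cl (2 - ‖z‖ / r), (r / ‖z‖) • z)) {z : E | z ≠ 0} := by
        refine ContinuousOn.prodMk ?_ ?_
        · exact (hclc.comp (continuous_const.sub (continuous_norm.div_const r))).continuousOn
        · refine ContinuousOn.smul ?_ continuousOn_id
          exact continuousOn_const.div continuous_norm.continuousOn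
            (fun z hz => norm_ne_zero_iff.mpr hz)
      have h1 : ContinuousOn (fun z : E => Hm (cl (2 - ‖z‖ / r)) ((r / ‖z‖) • z)) {z : E | z ≠ 0} := by
        refine hc.comp hmap ?_
        intro z hz
        exact ⟨hcl _, by simpa using hnu z hz⟩
      have h2 : ContinuousOn P {z : E | z ≠ 0} :=
        (continuous_norm.div_const r).continuousOn.smul h1
      exact h2.continuousAt hopen
  have hb : ∀ x, ‖x‖ = 2 * r → P x = x := by
    intro x hx
    have e1 : ‖x‖ / r = 2 := by rw [hx]; field_simp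
    have e2 : r / ‖x‖ = 1 / 2 := by rw [hx]; field_simp
    have hx0 : x ≠ 0 := by
      intro h
      rw [h, norm_zero] at hx
      linarith
    have e3 : cl (2 - 2) = 0 := by simp [cl]
    have e4 := hnu x hx0
    simp only [P]
    rw [e2] at e4
    rw [e1, e2, e3, h0 _ e4, smul_smul]
    norm_num
  obtain ⟨x, hx1, hx2⟩ := onto_ball (by linarith : (0:ℝ) < 2 * r) P hPc.continuousOn hb
    ((1/2 : ℝ) • y) (by rw [norm_smul, hy]; norm_num; linarith)
  have hxn : ‖x‖ = r / 2 := by
    rw [← hPn x, hx2, norm_smul, hy]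
    norm_num
    ring
  have hx0 : x ≠ 0 := by
    intro h
    rw [h, norm_zero] at hxn
    linarith
  refine ⟨(r / ‖x‖) • x, hnu x hx0, ?_⟩
  have e1 : ‖x‖ / r = 1 / 2 := by rw [hxn]; field_simp
  have e3 : cl (2 - 1 / 2) = 1 := by
    simp only [cl]
    norm_num
  simp only [P] at hx2
  rw [e1, e3] at hx2
  have h3 : (2:ℝ) • ((1/2 : ℝ) • Hm 1 ((r / ‖x‖) • x)) = (2:ℝ) • ((1/2 : ℝ) • y) := by
    rw [hx2]
  simpa [smul_smul] using h3

end Pool.Agent.V1183.BQ
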