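import Mathlib
import Pool.Agent.V1183.BQ.Top

/-!
A two point problem for dissipative / conservative systems of ordinary differential equations.
-/

open Set Metric Filter Topology
open scoped NNReal ContDiff InnerProductSpace

namespace Pool.Agent.V1183.BQ

theorem le_of_barrier {w w' : ℝ → ℝ} {a b c : ℝ} (hw : ContinuousOn w (Icc a b))
    (hw' : ∀ x ∈ Ico a b, HasDerivWithinAt w (w' x) (Ici x) x) (ha : w a ≤ c)
    (h : ∀ x ∈ Ico a b, c < w x → w' x ≤ 0) : ∀ x ∈ Icc a b, w x ≤ c := by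
  intro x hx
  refine le_of_forall_pos_le_add (fun ε hε => ?_)
  set δ := ε / (1 + (b - a)) with hδ
  have hab : 0 ≤ b - a := by linarith [hx.1, hx.2]
  have hδ0 : 0 < δ := by positivity
  have key := image_le_of_deriv_right_lt_deriv_boundary' (f := w) (f' := w') (a := a) (b := b)
    hw hw' (B := fun t => c + δ * (1 + (t - a))) (B' := fun _ => δ)
    (by simp only [sub_self, add_zero, mul_one]; linarith) (by fun_prop)
    (by
      intro t _
      have h1 : HasDerivAt (fun t => c + δ * (1 + (t - a))) (0 + δ * (0 + (1 - 0))) t := by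
        refine HasDerivAt.add (hasDerivAt_const _ _) (HasDerivAt.const_mul _ ?_)
        exact (hasDerivAt_const _ _).add ((hasDerivAt_id _).sub (hasDerivAt_const _ _))
      have h2 : HasDerivAt (fun t => c + δ * (1 + (t - a))) δ t := by
        convert h1 using 1
        ring
      exact h2.hasDerivWithinAt)
    (by
      intro t ht htB
      have : c < w t := by
        rw [htB]
        have : 0 < δ * (1 + (t - a)) := mul_pos hδ0 (by linarith [ht.1])
        linarith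
      exact lt_of_le_of_lt (h t ht this) hδ0)
  have h3 := key hx
  refine h3.trans ?_
  have h4 : δ * (1 + (x - a)) ≤ δ * (1 + (b - a)) :=
    mul_le_mul_of_nonneg_left (by linarith [hx.2]) hδ0.le
  have h5 : δ * (1 + (b - a)) = ε := by
    rw [hδ]; field_simp
  show c + δ * (1 + (x - a)) ≤ c + ε
  linarith

theorem flow {E : Type*} [NormedAddCommGroup E] [NormedSpace ℝ E] [FiniteDimensional ℝ E]
    (v : E → E) (hv : ContDiff ℝ 1 v) (hcs : HasCompactSupport v) {T : ℝ} (hT : 0 ≤ T)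
    (ρ : ℝ≥0) :
    ∃ α : E → ℝ → E, (∀ x ∈ closedBall (0 : E) ρ, α x (-T) = x ∧
      ∀ t ∈ Icc (-T) T, HasDerivWithinAt (α x) (v (α x t)) (Icc (-T) T) t) ∧
      ∃ L' : ℝ≥0, ∀ t ∈ Icc (-T) T, LipschitzOnWith L' (α · t) (closedBall 0 ρ) := by
  obtain ⟨K, hK⟩ := hv.lipschitzWith_of_hasCompactSupport hcs one_ne_zero
  obtain ⟨L0, hL0⟩ := hv.continuous.bounded_above_of_compact_support hcs
  set L : ℝ≥0 := ⟨max L0 0, le_max_right _ _⟩ with hL
  have hLb : ∀ x, ‖v x‖ ≤ L := fun x => (hL0 x).trans (le_max_left _ _)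
  set TT : ℝ≥0 := ⟨2 * T, by positivity⟩ with hTT
  have ht0 : -T ∈ Icc (-T) T := ⟨le_rfl, by linarith⟩
  have hPL : IsPicardLindelof (fun _ => v) (tmin := -T) (tmax := T) ⟨-T, ht0⟩ (0 : E)
      (ρ + L * TT) ρ L K := by
    refine ⟨fun t _ => hK.lipschitzOnWith, fun x _ => continuousOn_const, fun t _ x _ => hLb x, ?_⟩
    have : max (T - (-T)) (-T - (-T)) = 2 * T := by
      rw [max_eq_left (by linarith)]; ring
    simp only [this]
    push_cast
    rw [add_sub_cancel_left]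
    exact le_of_eq rfl
  exact hPL.exists_forall_mem_closedBall_eq_hasDerivWithinAt_lipschitzOnWith

theorem ici_of_icc {E : Type*} [NormedAddCommGroup E] [NormedSpace ℝ E] {z : ℝ → E} {z' : E}
    {a b t : ℝ} (h : HasDerivWithinAt z z' (Icc a b) t) (ht : t ∈ Ico a b) :
    HasDerivWithinAt z z' (Ici t) t :=
  h.mono_of_mem_nhdsWithin (Icc_mem_nhdsGE_of_mem ht)

theorem comp2 {V W : Type*} [NormedAddCommGroup V] [NormedSpace ℝ V]
    [NormedAddCommGroup W] [NormedSpace ℝ W] {z : ℝ → V × W} {z' : V × W} {S : Set ℝ}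
    {t : ℝ} (h : HasDerivWithinAt z z' S t) :
    HasDerivWithinAt (fun t => (z t).1) z'.1 S t ∧
    HasDerivWithinAt (fun t => (z t).2) z'.2 S t :=
  ⟨(hasFDerivAt_fst (𝕜 := ℝ) (p := z t)).comp_hasDerivWithinAt t h,
    (hasFDerivAt_snd (𝕜 := ℝ) (p := z t)).comp_hasDerivWithinAt t h⟩

theorem comp3 {U Θ : Type*} [NormedAddCommGroup U] [NormedSpace ℝ U]
    [NormedAddCommGroup Θ] [NormedSpace ℝ Θ] {z : ℝ → ℝ × U × Θ} {z' : ℝ × U × Θ} {S : Set ℝ}
    {t : ℝ} (h : HasDerivWithinAt z z' S t) :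
    HasDerivWithinAt (fun t => (z t).1) z'.1 S t ∧
    HasDerivWithinAt (fun t => (z t).2.1) z'.2.1 S t ∧
    HasDerivWithinAt (fun t => (z t).2.2) z'.2.2 S t := by
  have h2 := comp2 h
  exact ⟨h2.1, comp2 h2.2⟩

section
variable {U Θ : Type*} [NormedAddCommGroup U] [InnerProductSpace ℝ U] [FiniteDimensional ℝ U]
  [NormedAddCommGroup Θ] [InnerProductSpace ℝ Θ] [FiniteDimensional ℝ Θ]

theorem gal (f : U × Θ → U) (h : U × Θ → Θ) (hf : ContDiff ℝ 1 f) (hh : ContDiff ℝ 1 h)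
    {lam g : ℝ} (hlam : 0 < lam) (hg : 0 ≤ g)
    (H1 : ∀ u θ, ⟪u, f (u, θ)⟫_ℝ ≤ g * ‖θ‖ * ‖u‖ - lam * ‖u‖ ^ 2)
    (H2 : ∀ u θ, ⟪θ, h (u, θ)⟫_ℝ = 0) {T : ℝ} (hT : 0 < T) (y : Θ) :
    ∃ (u : ℝ → U) (θ : ℝ → Θ),
      (∀ t ∈ Icc (-T) T, HasDerivWithinAt u (f (u t, θ t)) (Icc (-T) T) t) ∧
      (∀ t ∈ Icc (-T) T, HasDerivWithinAt θ (h (u t, θ t)) (Icc (-T) T) t) ∧
      θ 0 = y ∧ (∀ t ∈ Icc (-T) T, ‖θ t‖ = ‖y‖) ∧
      (∀ t ∈ Icc (-T) T, ‖u t‖ ≤ g * ‖y‖ / lam) := by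
  classical
  set r := ‖y‖ with hr
  have hr0 : 0 ≤ r := norm_nonneg _
  set ρ := g * r / lam with hρ
  have hρ0 : 0 ≤ ρ := by positivity
  set R : ℝ := 1 + r + ρ with hR
  have hR0 : 0 < R := by positivity
  -- cut-off
  let χ : ContDiffBump (0 : ℝ × U × Θ) := ⟨R, R + 1, hR0, by linarith⟩
  let v : ℝ × U × Θ → ℝ × U × Θ := fun z => χ z • ((0 : ℝ), f z.2, z.1 • h z.2)
  have hvC : ContDiff ℝ 1 v := by
    refine ContDiff.smul χ.contDiff ?_
    refine ContDiff.prodMk contDiff_const ?_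
    refine ContDiff.prodMk (hf.comp contDiff_snd) ?_
    exact ContDiff.smul contDiff_fst (hh.comp contDiff_snd)
  have hvS : HasCompactSupport v := by
    have : HasCompactSupport (fun z => χ z) := χ.hasCompactSupport
    exact this.smul_right
  set ρ0 : ℝ≥0 := ⟨R, hR0.le⟩ with hρ0'
  obtain ⟨α, hα, L', hL'⟩ := flow v hvC hvS hT.le ρ0
  have hmT : (-T) ∈ Icc (-T) T := ⟨le_rfl, by linarith⟩
  have h0T : (0:ℝ) ∈ Icc (-T) T := ⟨by linarith, hT.le⟩
  -- initial points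
  let ini : ℝ → Θ → ℝ × U × Θ := fun s ϑ => (s, 0, ϑ)
  have hini : ∀ s ∈ Icc (0:ℝ) 1, ∀ ϑ : Θ, ‖ϑ‖ = r → ini s ϑ ∈ closedBall (0 : ℝ × U × Θ) ρ0 := by
    intro s hs ϑ hϑ
    rw [mem_closedBall_zero_iff]
    show ‖((s, (0:U), ϑ) : ℝ × U × Θ)‖ ≤ R
    rw [Prod.norm_mk, Prod.norm_mk, norm_zero, hϑ]
    refine max_le ?_ (max_le (by positivity) (by linarith))
    rw [Real.norm_eq_abs, abs_of_nonneg hs.1]
    linarith [hs.2]
  -- properties of a trajectory
  have prop : ∀ s ∈ Icc (0:ℝ) 1, ∀ ϑ : Θ, ‖ϑ‖ = r → ∀ t ∈ Icc (-T) T,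
      (α (ini s ϑ) t).1 = s ∧ ‖(α (ini s ϑ) t).2.2‖ = r ∧ ‖(α (ini s ϑ) t).2.1‖ ≤ ρ := by
    intro s hs ϑ hϑ
    obtain ⟨e0, e1⟩ := hα _ (hini s hs ϑ hϑ)
    set z := α (ini s ϑ) with hz
    have hzc : ContinuousOn z (Icc (-T) T) := fun t ht => (e1 t ht).continuousWithinAt
    -- components
    have d1 : ∀ t ∈ Icc (-T) T, HasDerivWithinAt (fun t => (z t).1) 0 (Icc (-T) T) t := by
      intro t ht
      have := (comp3 (e1 t ht)).1
      have e : (v (z t)).1 = 0 := by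
        show χ (z t) • (0:ℝ) = 0
        simp
      rwa [e] at this
    have d2 : ∀ t ∈ Icc (-T) T, HasDerivWithinAt (fun t => (z t).2.1)
        (χ (z t) • f (z t).2) (Icc (-T) T) t := by
      intro t ht
      exact (comp3 (e1 t ht)).2.1
    have d3 : ∀ t ∈ Icc (-T) T, HasDerivWithinAt (fun t => (z t).2.2)
        (χ (z t) • (z t).1 • h (z t).2) (Icc (-T) T) t := by
      intro t ht
      exact (comp3 (e1 t ht)).2.2
    have c1 : ContinuousOn (fun t => (z t).1) (Icc (-T) T) :=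
      fun t ht => (d1 t ht).continuousWithinAt
    have c2 : ContinuousOn (fun t => (z t).2.1) (Icc (-T) T) :=
      fun t ht => (d2 t ht).continuousWithinAt
    have c3 : ContinuousOn (fun t => (z t).2.2) (Icc (-T) T) :=
      fun t ht => (d3 t ht).continuousWithinAt
    have p1 : ∀ t ∈ Icc (-T) T, (z t).1 = s := by
      intro t ht
      have := constant_of_has_deriv_right_zero c1
        (fun x hx => ici_of_icc (d1 x (Ico_subset_Icc_self hx)) hx) t ht
      rw [this]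
      show (z (-T)).1 = s
      rw [e0]
    have p3 : ∀ t ∈ Icc (-T) T, ‖(z t).2.2‖ = r := by
      intro t ht
      have hq : ∀ x ∈ Ico (-T) T, HasDerivWithinAt (fun t => ‖(z t).2.2‖ ^ 2) 0 (Ici x) x := by
        intro x hx
        have := (ici_of_icc (d3 x (Ico_subset_Icc_self hx)) hx).norm_sq
        convert this using 1
        rw [inner_smul_right, inner_smul_right, H2]
        ring
      have := constant_of_has_deriv_right_zero (c3.norm.pow 2) hq t ht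
      have this : ‖(z t).2.2‖ ^ 2 = ‖(z (-T)).2.2‖ ^ 2 := this
      have h2 : ‖(ini s ϑ).2.2‖ = r := hϑ
      rw [e0, h2] at this
      exact (pow_left_inj₀ (norm_nonneg _) hr0 two_ne_zero).mp this
    have p2 : ∀ t ∈ Icc (-T) T, ‖(z t).2.1‖ ≤ ρ := by
      intro t ht
      have := le_of_barrier (w := fun t => ‖(z t).2.1‖ ^ 2)
        (w' := fun t => 2 * ⟪(z t).2.1, χ (z t) • f (z t).2⟫_ℝ) (a := -T) (b := T) (c := ρ ^ 2)
        (c2.norm.pow 2)
        (fun x hx => (ici_of_icc (d2 x (Ico_subset_Icc_self hx)) hx).norm_sq)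
        (by
          show ‖(z (-T)).2.1‖ ^ 2 ≤ ρ ^ 2
          rw [e0]
          show ‖(0:U)‖ ^ 2 ≤ ρ ^ 2
          rw [norm_zero, zero_pow two_ne_zero]
          exact sq_nonneg ρ)
        (by
          intro x hx hlt
          have hx' := Ico_subset_Icc_self hx
          have hlt' : ρ ^ 2 < ‖(z x).2.1‖ ^ 2 := hlt
          have hlt2 : ρ < ‖(z x).2.1‖ := lt_of_pow_lt_pow_left₀ 2 (norm_nonneg _) hlt'
          have hb := H1 (z x).2.1 (z x).2.2
          rw [p3 x hx'] at hb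
          show 2 * ⟪(z x).2.1, χ (z x) • f (z x).2⟫_ℝ ≤ 0
          rw [inner_smul_right]
          have hgr : g * r < lam * ‖(z x).2.1‖ := by
            rw [hρ, div_lt_iff₀ hlam] at hlt2
            linarith
          have hneg : ⟪(z x).2.1, f (z x).2⟫_ℝ ≤ 0 := by
            refine hb.trans ?_
            have := norm_nonneg (z x).2.1
            nlinarith
          have := χ.nonneg (x := z x)
          nlinarith) t ht
      exact (pow_le_pow_iff_left₀ (norm_nonneg _) hρ0 two_ne_zero).mp this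
    exact fun t ht => ⟨p1 t ht, p3 t ht, p2 t ht⟩
  have chi1 : ∀ s ∈ Icc (0:ℝ) 1, ∀ ϑ : Θ, ‖ϑ‖ = r → ∀ t ∈ Icc (-T) T,
      χ (α (ini s ϑ) t) = 1 := by
    intro s hs ϑ hϑ t ht
    obtain ⟨q1, q2, q3⟩ := prop s hs ϑ hϑ t ht
    refine χ.one_of_mem_closedBall ?_
    rw [mem_closedBall_zero_iff]
    show ‖α (ini s ϑ) t‖ ≤ R
    rw [Prod.norm_def, Prod.norm_def, q1, q2]
    refine max_le ?_ (max_le (by linarith) (by linarith))
    rw [Real.norm_eq_abs, abs_of_nonneg hs.1]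
    linarith [hs.2]
  -- solutions for `s = 1`
  have final : ∀ ϑ : Θ, ‖ϑ‖ = r → (α (ini 1 ϑ) 0).2.2 = y → ∃ (u : ℝ → U) (θ : ℝ → Θ),
      (∀ t ∈ Icc (-T) T, HasDerivWithinAt u (f (u t, θ t)) (Icc (-T) T) t) ∧
      (∀ t ∈ Icc (-T) T, HasDerivWithinAt θ (h (u t, θ t)) (Icc (-T) T) t) ∧
      θ 0 = y ∧ (∀ t ∈ Icc (-T) T, ‖θ t‖ = r) ∧
      (∀ t ∈ Icc (-T) T, ‖u t‖ ≤ ρ) := by
    intro ϑ hϑ hy
    have h11 : (1:ℝ) ∈ Icc (0:ℝ) 1 := ⟨zero_le_one, le_rfl⟩
    obtain ⟨e0, e1⟩ := hα _ (hini 1 h11 ϑ hϑ)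
    refine ⟨fun t => (α (ini 1 ϑ) t).2.1, fun t => (α (ini 1 ϑ) t).2.2, ?_, ?_, hy,
      fun t ht => (prop 1 h11 ϑ hϑ t ht).2.1, fun t ht => (prop 1 h11 ϑ hϑ t ht).2.2⟩
    · intro t ht
      have := (comp3 (e1 t ht)).2.1
      have e : (v (α (ini 1 ϑ) t)).2.1 = f ((α (ini 1 ϑ) t).2.1, (α (ini 1 ϑ) t).2.2) := by
        show χ (α (ini 1 ϑ) t) • f (α (ini 1 ϑ) t).2 = _
        rw [chi1 1 h11 ϑ hϑ t ht, one_smul]
      rwa [e] at this
    · intro t ht
      have := (comp3 (e1 t ht)).2.2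
      have e : (v (α (ini 1 ϑ) t)).2.2 = h ((α (ini 1 ϑ) t).2.1, (α (ini 1 ϑ) t).2.2) := by
        show χ (α (ini 1 ϑ) t) • (α (ini 1 ϑ) t).1 • h (α (ini 1 ϑ) t).2 = _
        rw [chi1 1 h11 ϑ hϑ t ht, (prop 1 h11 ϑ hϑ t ht).1, one_smul, one_smul]
      rwa [e] at this
  rcases hr0.eq_or_lt with h0 | hpos
  · -- `y = 0`
    have hy0 : y = 0 := norm_eq_zero.mp (by rw [← hr, ← h0])
    refine final 0 (by rw [norm_zero, h0]) ?_
    have := (prop 1 ⟨zero_le_one, le_rfl⟩ 0 (by rw [norm_zero, h0]) 0 h0T).2.1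
    rw [← h0, norm_eq_zero] at this
    rw [this, hy0]
  · obtain ⟨ϑ, hϑ, hϑy⟩ := surj_of_homotopy hpos (fun s ϑ => (α (ini s ϑ) 0).2.2)
      (by
        have hc1 : ContinuousOn (α · 0) (closedBall (0 : ℝ × U × Θ) ρ0) :=
          (hL' 0 h0T).continuousOn
        have hc2 : Continuous (fun p : ℝ × Θ => ini p.1 p.2) := by
          simp only [ini]
          fun_prop
        have hc3 : ContinuousOn (fun p : ℝ × Θ => α (ini p.1 p.2) 0)
            (Icc (0:ℝ) 1 ×ˢ sphere (0:Θ) r) := by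
          refine hc1.comp hc2.continuousOn ?_
          rintro ⟨s, ϑ⟩ ⟨hs, hϑ⟩
          exact hini s hs ϑ (by simpa using hϑ)
        exact (continuous_snd.comp continuous_snd).comp_continuousOn hc3)
      (by
        intro ϑ hϑ
        have h00 : (0:ℝ) ∈ Icc (0:ℝ) 1 := ⟨le_rfl, zero_le_one⟩
        obtain ⟨e0, e1⟩ := hα _ (hini 0 h00 ϑ hϑ)
        have d3 : ∀ t ∈ Icc (-T) T, HasDerivWithinAt (fun t => (α (ini 0 ϑ) t).2.2) 0
            (Icc (-T) T) t := by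
          intro t ht
          have := (comp3 (e1 t ht)).2.2
          have e : (v (α (ini 0 ϑ) t)).2.2 = 0 := by
            show χ (α (ini 0 ϑ) t) • (α (ini 0 ϑ) t).1 • h (α (ini 0 ϑ) t).2 = _
            rw [(prop 0 h00 ϑ hϑ t ht).1, zero_smul, smul_zero]
          rwa [e] at this
        have := constant_of_has_deriv_right_zero
          (fun t ht => (d3 t ht).continuousWithinAt)
          (fun x hx => ici_of_icc (d3 x (Ico_subset_Icc_self hx)) hx) 0 h0T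
        show (α (ini 0 ϑ) 0).2.2 = ϑ
        rw [this, e0])
      (fun s hs ϑ hϑ => (prop s hs ϑ hϑ 0 h0T).2.1) y hr.symm
    exact final ϑ hϑ hϑy

end

end Pool.Agent.V1183.BQ
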