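import Mathlib
import Pool.Agent.V1183.BQ.Ode
import Pool.Agent.V1183.BQ.Alg

/-!
The Galerkin system of the Boussinesq equations in Fourier variables and its two point problem.
-/

open Set Finset ComplexConjugate
open scoped InnerProductSpace ContDiff

namespace Pool.Agent.V1183.BQ

/-- right-hand side of the velocity equation -/
noncomputable def Fa (κ ν g : ℝ) (K : Finset Z2) (a b : Z2 → ℂ) (k : Z2) : ℂ :=
  -((ν * κ ^ 2 * nm k ^ 2 : ℝ) : ℂ) * a k + Nl (qa κ) K a a k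
    - Complex.I * ((g * k 0 / nm k : ℝ) : ℂ) * b k

/-- right-hand side of the temperature equation -/
noncomputable def Fb (κ : ℝ) (K : Finset Z2) (a b : Z2 → ℂ) (k : Z2) : ℂ := Nl (qt κ) K a b k

theorem Fa_conj {κ ν g : ℝ} {N : ℕ} {a b : Z2 → ℂ} (ha : ∀ k, a (-k) = conj (a k))
    (hb : ∀ k, b (-k) = conj (b k)) (k : Z2) :
    Fa κ ν g (KN N) a b (-k) = conj (Fa κ ν g (KN N) a b k) := by
  unfold Fa
  rw [Nl_conj (qa_even κ) KN_neg ha ha, ha, hb, nm_neg]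
  simp only [map_add, map_sub, map_mul, map_neg, Complex.conj_ofReal, Complex.conj_I,
    Pi.neg_apply]
  push_cast
  ring

theorem Fb_conj {κ : ℝ} {N : ℕ} {a b : Z2 → ℂ} (ha : ∀ k, a (-k) = conj (a k))
    (hb : ∀ k, b (-k) = conj (b k)) (k : Z2) :
    Fb κ (KN N) a b (-k) = conj (Fb κ (KN N) a b k) :=
  Nl_conj (qt_even κ) KN_neg ha hb k

/-- sum of squares -/
noncomputable def sq (K : Finset Z2) (a : Z2 → ℂ) : ℝ := ∑ k ∈ K, ‖a k‖ ^ 2

theorem sq_nonneg' (K : Finset Z2) (a : Z2 → ℂ) : 0 ≤ sq K a :=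
  Finset.sum_nonneg fun _ _ => by positivity

/-- gradient sum -/
noncomputable def gq (K : Finset Z2) (a : Z2 → ℂ) : ℝ := ∑ k ∈ K, nm k ^ 2 * ‖a k‖ ^ 2

theorem abs_k0_le (k : Z2) : |(k 0 : ℝ)| ≤ nm k := by
  apply abs_le_of_sq_le_sq _ (nm_nonneg _)
  rw [nm_sq]
  unfold dt
  nlinarith [mul_self_nonneg (k 1 : ℝ)]

theorem energy_a {κ ν g : ℝ} (hg : 0 ≤ g) {N : ℕ} {a b : Z2 → ℂ}
    (ha : ∀ k, a (-k) = conj (a k)) (hs : ∀ k, k ∉ KN N → a k = 0) :
    (∑ k ∈ KN N, conj (a k) * Fa κ ν g (KN N) a b k).re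
      ≤ g * (Real.sqrt (sq (KN N) b) * Real.sqrt (sq (KN N) a)) - ν * κ ^ 2 * gq (KN N) a := by
  have h0 := Nl_anti (qa_anti κ) (K := KN N) KN_neg (a := a) (b := a) ha hs
  have h1 : (∑ k ∈ KN N, conj (a k) * Fa κ ν g (KN N) a b k).re
      = -(ν * κ ^ 2 * gq (KN N) a) + (∑ k ∈ KN N, conj (a k) * Nl (qa κ) (KN N) a a k).re
        + (∑ k ∈ KN N, -(conj (a k) * (Complex.I * ((g * k 0 / nm k : ℝ) : ℂ) * b k))).re := by
    rw [gq, Finset.mul_sum, ← Finset.sum_neg_distrib, Complex.re_sum, Complex.re_sum,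
      Complex.re_sum, ← Finset.sum_add_distrib, ← Finset.sum_add_distrib]
    refine Finset.sum_congr rfl (fun k _ => ?_)
    unfold Fa
    have e : conj (a k) * (-((ν * κ ^ 2 * nm k ^ 2 : ℝ) : ℂ) * a k + Nl (qa κ) (KN N) a a k
        - Complex.I * ((g * k 0 / nm k : ℝ) : ℂ) * b k)
        = -((ν * κ ^ 2 * nm k ^ 2 : ℝ) : ℂ) * (conj (a k) * a k)
          + conj (a k) * Nl (qa κ) (KN N) a a k
          + -(conj (a k) * (Complex.I * ((g * k 0 / nm k : ℝ) : ℂ) * b k)) := by ring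
    rw [e, Complex.add_re, Complex.add_re]
    congr 2
    rw [mul_comm (conj (a k)), Complex.mul_conj, ← Complex.ofReal_neg, ← Complex.ofReal_mul,
      Complex.ofReal_re, Complex.normSq_eq_norm_sq]
    ring
  rw [h1, h0]
  have h2 : (∑ k ∈ KN N, -(conj (a k) * (Complex.I * ((g * k 0 / nm k : ℝ) : ℂ) * b k))).re
      ≤ g * (Real.sqrt (sq (KN N) b) * Real.sqrt (sq (KN N) a)) := by
    refine (Complex.re_le_norm _).trans ?_
    refine (norm_sum_le _ _).trans ?_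
    have h3 : ∀ k ∈ KN N, ‖-(conj (a k) * (Complex.I * ((g * k 0 / nm k : ℝ) : ℂ) * b k))‖
        ≤ g * (‖b k‖ * ‖a k‖) := by
      intro k hk
      rw [norm_neg, norm_mul, norm_mul, norm_mul, Complex.norm_I, one_mul, Complex.norm_real,
        RCLike.norm_conj, Real.norm_eq_abs, abs_div, abs_mul, abs_of_nonneg hg,
        abs_of_nonneg (nm_nonneg k)]
      have h4 : g * |(k 0 : ℝ)| / nm k ≤ g := by
        rw [div_le_iff₀ (nm_pos (mem_KN.mp hk).1)]
        exact mul_le_mul_of_nonneg_left (abs_k0_le k) hg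
      calc ‖a k‖ * (g * |(k 0 : ℝ)| / nm k * ‖b k‖) ≤ ‖a k‖ * (g * ‖b k‖) := by gcongr
        _ = g * (‖b k‖ * ‖a k‖) := by ring
    refine (Finset.sum_le_sum h3).trans ?_
    rw [← Finset.mul_sum]
    refine mul_le_mul_of_nonneg_left ?_ hg
    unfold sq
    have := Real.sum_mul_le_sqrt_mul_sqrt (KN N) (fun k => ‖b k‖) (fun k => ‖a k‖)
    exact this
  linarith

theorem energy_b {κ : ℝ} {N : ℕ} {a b : Z2 → ℂ}
    (ha : ∀ k, a (-k) = conj (a k)) (hs : ∀ k, k ∉ KN N → b k = 0) :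
    (∑ k ∈ KN N, conj (b k) * Fb κ (KN N) a b k).re = 0 :=
  Nl_anti (qt_anti κ) KN_neg ha hs

/-- splitting of a real part of a symmetric sum -/
theorem re_half {N : ℕ} {c F : Z2 → ℂ} (hc : ∀ k, c (-k) = conj (c k))
    (hF : ∀ k, F (-k) = conj (F k)) :
    (∑ k ∈ KN N, conj (c k) * F k).re = 2 * ∑ k ∈ SN N, (conj (c k) * F k).re := by
  rw [Complex.re_sum, sum_KN, Finset.mul_sum]
  refine Finset.sum_congr rfl (fun k _ => ?_)
  rw [hc, hF, ← map_mul, Complex.conj_re]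
  ring

theorem sq_half {N : ℕ} {c : Z2 → ℂ} (hc : ∀ k, c (-k) = conj (c k)) :
    sq (KN N) c = 2 * ∑ k ∈ SN N, ‖c k‖ ^ 2 := by
  unfold sq
  rw [sum_KN, Finset.mul_sum]
  refine Finset.sum_congr rfl (fun k _ => ?_)
  rw [hc, RCLike.norm_conj]
  ring

abbrev ES (N : ℕ) := EuclideanSpace ℂ (SN N)

/-- extension of Euclidean vectors -/
noncomputable def ex (N : ℕ) (c : ES N) : Z2 → ℂ := ext N (fun k => c k)

theorem ex_contDiff (N : ℕ) (k : Z2) : ContDiff ℝ 1 (fun c : ES N => ex N c k) := by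
  have hp : ∀ i : SN N, ContDiff ℝ 1 (fun c : ES N => c i) := fun i =>
    ((EuclideanSpace.proj i : ES N →L[ℂ] ℂ).restrictScalars ℝ).contDiff
  unfold ex ext
  split_ifs with h1 h2
  · exact hp _
  · exact Complex.conjCLE.contDiff.comp (hp _)
  · exact contDiff_const

theorem norm_sq_ES {N : ℕ} (c : ES N) : 2 * ‖c‖ ^ 2 = sq (KN N) (ex N c) := by
  rw [sq_half (c := ex N c) (ext_neg _), EuclideanSpace.norm_sq_eq,
    ← Finset.sum_coe_sort (SN N)]
  congr 1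
  refine Finset.sum_congr rfl (fun k _ => ?_)
  unfold ex
  rw [ext_pos _ k.2]

theorem inner_ES {N : ℕ} (c : ES N) {F : Z2 → ℂ} (hF : ∀ k, F (-k) = conj (F k)) :
    2 * ⟪c, (WithLp.toLp 2 (fun k : SN N => F k) : ES N)⟫_ℝ
      = (∑ k ∈ KN N, conj (ex N c k) * F k).re := by
  rw [re_half (c := ex N c) (ext_neg _) hF, PiLp.inner_apply, ← Finset.sum_coe_sort (SN N)]
  congr 1
  refine Finset.sum_congr rfl (fun k _ => ?_)
  unfold ex
  rw [ext_pos _ k.2, Complex.inner, mul_comm]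

theorem Nl_contDiff (q : Z2 → Z2 → ℝ) (N : ℕ) (k : Z2) (α β : ES N × ES N → ES N)
    (hα : ContDiff ℝ 1 α) (hβ : ContDiff ℝ 1 β) :
    ContDiff ℝ 1 (fun z : ES N × ES N => Nl q (KN N) (ex N (α z)) (ex N (β z)) k) := by
  unfold Nl
  refine ContDiff.sum (fun l _ => ?_)
  exact (contDiff_const.mul ((ex_contDiff N l).comp hα)).mul ((ex_contDiff N (k - l)).comp hβ)

theorem toLp_contDiff {N : ℕ} {F : ES N × ES N → SN N → ℂ}
    (hF : ∀ k, ContDiff ℝ 1 (fun z => F z k)) :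
    ContDiff ℝ 1 (fun z : ES N × ES N => (WithLp.toLp 2 (F z) : ES N)) := by
  rw [contDiff_piLp]
  exact hF

theorem galF {κ ν g : ℝ} (hκ : 0 < κ) (hν : 0 < ν) (hg : 0 ≤ g) (N : ℕ) {T : ℝ} (hT : 0 < T)
    {y : Z2 → ℂ} (hy : ∀ k, y (-k) = conj (y k)) (hys : ∀ k, k ∉ KN N → y k = 0) :
    ∃ a b : ℝ → Z2 → ℂ,
      (∀ t k, k ∉ KN N → a t k = 0) ∧ (∀ t k, k ∉ KN N → b t k = 0) ∧
      (∀ t k, a t (-k) = conj (a t k)) ∧ (∀ t k, b t (-k) = conj (b t k)) ∧
      (∀ t ∈ Icc (-T) T, ∀ k ∈ KN N, HasDerivWithinAt (fun s => a s k)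
        (Fa κ ν g (KN N) (a t) (b t) k) (Icc (-T) T) t) ∧
      (∀ t ∈ Icc (-T) T, ∀ k ∈ KN N, HasDerivWithinAt (fun s => b s k)
        (Fb κ (KN N) (a t) (b t) k) (Icc (-T) T) t) ∧
      b 0 = y ∧ (∀ t ∈ Icc (-T) T, sq (KN N) (b t) = sq (KN N) y) ∧
      (∀ t ∈ Icc (-T) T, sq (KN N) (a t) ≤ (g / (ν * κ ^ 2)) ^ 2 * sq (KN N) y) := by
  set f : ES N × ES N → ES N := fun z =>
    WithLp.toLp 2 (fun k : SN N => Fa κ ν g (KN N) (ex N z.1) (ex N z.2) k) with hf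
  set h : ES N × ES N → ES N := fun z =>
    WithLp.toLp 2 (fun k : SN N => Fb κ (KN N) (ex N z.1) (ex N z.2) k) with hh
  have hsym : ∀ (c : ES N) k, ex N c (-k) = conj (ex N c k) := fun c k => ext_neg _ k
  have hsup : ∀ (c : ES N) k, k ∉ KN N → ex N c k = 0 := fun c k hk => ext_supp _ hk
  have hfC : ContDiff ℝ 1 f := by
    refine toLp_contDiff (fun k => ?_)
    unfold Fa
    refine ContDiff.sub (ContDiff.add ?_ ?_) ?_
    · exact contDiff_const.mul ((ex_contDiff N k).comp contDiff_fst)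
    · exact Nl_contDiff _ N k _ _ contDiff_fst contDiff_fst
    · exact contDiff_const.mul ((ex_contDiff N k).comp contDiff_snd)
  have hhC : ContDiff ℝ 1 h :=
    toLp_contDiff (fun k => Nl_contDiff _ N k _ _ contDiff_fst contDiff_snd)
  have hlam : 0 < ν * κ ^ 2 := by positivity
  have hnorm : ∀ c : ES N, Real.sqrt (sq (KN N) (ex N c)) = Real.sqrt 2 * ‖c‖ := by
    intro c
    rw [← norm_sq_ES, Real.sqrt_mul (by norm_num), Real.sqrt_sq (norm_nonneg _)]
  obtain ⟨u, θ, hu, hθ, h0, hθn, hun⟩ := gal f h hfC hhC (lam := ν * κ ^ 2) (g := g) hlam hg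
    (by
      intro c d
      have e := inner_ES c (F := Fa κ ν g (KN N) (ex N c) (ex N d))
        (fun k => Fa_conj (hsym c) (hsym d) k)
      have e2 := energy_a (κ := κ) (ν := ν) hg (N := N) (a := ex N c) (b := ex N d) (hsym c)
        (hsup c)
      rw [← e, hnorm, hnorm] at e2
      have e3 : sq (KN N) (ex N c) ≤ gq (KN N) (ex N c) := by
        unfold sq gq
        refine Finset.sum_le_sum (fun k hk => ?_)
        have h1 := one_le_nm (mem_KN.mp hk).1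
        have h2 : 1 ≤ nm k ^ 2 := by nlinarith
        nlinarith [sq_nonneg ‖ex N c k‖]
      rw [← norm_sq_ES] at e3
      have e4 := mul_le_mul_of_nonneg_left e3 hlam.le
      have e5 : g * (Real.sqrt 2 * ‖d‖ * (Real.sqrt 2 * ‖c‖)) = 2 * (g * ‖d‖ * ‖c‖) := by
        have : Real.sqrt 2 * Real.sqrt 2 = 2 := Real.mul_self_sqrt (by norm_num)
        calc g * (Real.sqrt 2 * ‖d‖ * (Real.sqrt 2 * ‖c‖))
            = (Real.sqrt 2 * Real.sqrt 2) * (g * ‖d‖ * ‖c‖) := by ring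
          _ = _ := by rw [this]
      rw [e5] at e2
      show ⟪c, (WithLp.toLp 2 (fun k : SN N => Fa κ ν g (KN N) (ex N c) (ex N d) k) : ES N)⟫_ℝ ≤ _
      nlinarith)
    (by
      intro c d
      have e := inner_ES d (F := Fb κ (KN N) (ex N c) (ex N d))
        (fun k => Fb_conj (hsym c) (hsym d) k)
      rw [energy_b (hsym c) (hsup d)] at e
      show ⟪d, (WithLp.toLp 2 (fun k : SN N => Fb κ (KN N) (ex N c) (ex N d) k) : ES N)⟫_ℝ = 0
      linarith) hT (WithLp.toLp 2 (fun k : SN N => y k))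
  have hcoord : ∀ {x : ℝ → ES N} {x' : ES N} {t : ℝ},
      HasDerivWithinAt x x' (Icc (-T) T) t → ∀ k : SN N,
      HasDerivWithinAt (fun s => x s k) (x' k) (Icc (-T) T) t := by
    intro x x' t hx k
    exact (((EuclideanSpace.proj k : ES N →L[ℂ] ℂ).restrictScalars ℝ).hasFDerivAt
      (x := x t)).comp_hasDerivWithinAt t hx
  -- derivative of the extension
  have hext : ∀ {x : ℝ → ES N} {F : ℝ → Z2 → ℂ} (_ : ∀ t k, F t (-k) = conj (F t k)) {t : ℝ},
      HasDerivWithinAt x (WithLp.toLp 2 (fun k : SN N => F t k)) (Icc (-T) T) t →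
      ∀ k ∈ KN N, HasDerivWithinAt (fun s => ex N (x s) k) (F t k) (Icc (-T) T) t := by
    intro x F hF t hx k hk
    rcases pos_or (mem_KN.mp hk).1 with hp | hp
    · have hkS : k ∈ SN N := mem_SN.mpr ⟨hk, hp⟩
      have := hcoord hx ⟨k, hkS⟩
      have e : (fun s => ex N (x s) k) = fun s => x s ⟨k, hkS⟩ := by
        funext s
        unfold ex
        rw [ext_pos _ hkS]
      rw [e]
      exact this
    · have hkS : -k ∈ SN N := mem_SN.mpr ⟨KN_neg _ hk, hp⟩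
      have h1 := hcoord hx ⟨-k, hkS⟩
      have h1' : HasDerivWithinAt (fun s => (x s ⟨-k, hkS⟩ : ℂ)) (F t (-k)) (Icc (-T) T) t := h1
      have h2 : HasDerivWithinAt (fun s => conj (x s ⟨-k, hkS⟩ : ℂ)) (conj (F t (-k)))
          (Icc (-T) T) t := by
        have := h1'.star
        exact this
      have e : (fun s => ex N (x s) k) = fun s => conj (x s ⟨-k, hkS⟩) := by
        funext s
        have := hsym (x s) (-k)
        rw [neg_neg] at this
        rw [this]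
        unfold ex
        rw [ext_pos _ hkS]
      rw [e]
      rwa [hF, Complex.conj_conj] at h2
  have hy2 : ex N (WithLp.toLp 2 (fun k : SN N => y k) : ES N) = y := ext_restrict hy hys
  have hny : 2 * ‖(WithLp.toLp 2 (fun k : SN N => y k) : ES N)‖ ^ 2 = sq (KN N) y := by
    rw [norm_sq_ES, hy2]
  refine ⟨fun t => ex N (u t), fun t => ex N (θ t), fun t k hk => hsup _ k hk,
    fun t k hk => hsup _ k hk, fun t k => hsym _ k, fun t k => hsym _ k, ?_, ?_, ?_, ?_, ?_⟩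
  · intro t ht k hk
    exact hext (F := fun t => Fa κ ν g (KN N) (ex N (u t)) (ex N (θ t)))
      (fun t k => Fa_conj (hsym _) (hsym _) k) (hu t ht) k hk
  · intro t ht k hk
    exact hext (F := fun t => Fb κ (KN N) (ex N (u t)) (ex N (θ t)))
      (fun t k => Fb_conj (hsym _) (hsym _) k) (hθ t ht) k hk
  · show ex N (θ 0) = y
    rw [h0, hy2]
  · intro t ht
    show sq (KN N) (ex N (θ t)) = _
    rw [← norm_sq_ES, hθn t ht, hny]
  · intro t ht
    show sq (KN N) (ex N (u t)) ≤ _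
    rw [← norm_sq_ES, ← hny]
    have h1 := hun t ht
    have h2 : ‖u t‖ ^ 2 ≤ (g * ‖(WithLp.toLp 2 (fun k : SN N => y k) : ES N)‖
        / (ν * κ ^ 2)) ^ 2 := by
      gcongr
    have h3 : (g * ‖(WithLp.toLp 2 (fun k : SN N => y k) : ES N)‖ / (ν * κ ^ 2)) ^ 2
        = (g / (ν * κ ^ 2)) ^ 2 * ‖(WithLp.toLp 2 (fun k : SN N => y k) : ES N)‖ ^ 2 := by
      rw [mul_div_right_comm, mul_pow]
    rw [h3] at h2
    linarith

end Pool.Agent.V1183.BQ
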