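import Mathlib
import Pool.Agent.V1183.BQ.Gal

/-!
Bounds for the bilinear terms and extraction of limits.
-/

open Set Finset ComplexConjugate Filter Topology Metric MeasureTheory

namespace Pool.Agent.V1183.BQ

theorem diag {ι E : Type*} [Countable ι] [NormedAddCommGroup E] [ProperSpace E]
    (F : ℕ → ι → ℝ → E) (M L : ι → ℝ) (hM : ∀ n i t, ‖F n i t‖ ≤ M i)
    (hL : ∀ n i s t, ‖F n i t - F n i s‖ ≤ L i * |t - s|) :
    ∃ φ : ℕ → ℕ, StrictMono φ ∧ ∃ G : ι → ℝ → E, ∀ i t,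
      Tendsto (fun n => F (φ n) i t) atTop (𝓝 (G i t)) := by
  have hcpt : IsCompact (Set.pi univ (fun p : ι × ℚ => closedBall (0 : E) (M p.1))) :=
    isCompact_univ_pi (fun p => isCompact_closedBall _ _)
  obtain ⟨G0, _, φ, hφ, hG0⟩ := hcpt.tendsto_subseq
    (x := fun n => (fun p : ι × ℚ => F n p.1 (p.2 : ℝ))) (by
      intro n p _
      simpa using hM n p.1 p.2)
  rw [tendsto_pi_nhds] at hG0
  have hcau : ∀ i t, CauchySeq (fun n => F (φ n) i t) := by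
    intro i t
    rw [Metric.cauchySeq_iff]
    intro ε hε
    set c := |L i| + 1 with hc
    have hc0 : 0 < c := by positivity
    obtain ⟨q, hq1, hq2⟩ := exists_rat_btwn (show t - ε / (4 * c) < t + ε / (4 * c) by
      have : 0 < ε / (4 * c) := by positivity
      linarith)
    have hq : |t - q| ≤ ε / (4 * c) := by
      rw [abs_le]; constructor <;> linarith
    have h1 : CauchySeq (fun n => F (φ n) i (q : ℝ)) := (hG0 (i, q)).cauchySeq
    obtain ⟨N, hN⟩ := (Metric.cauchySeq_iff.mp h1) (ε / 4) (by positivity)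
    refine ⟨N, fun m hm n hn => ?_⟩
    have h2 := hN m hm n hn
    have hb : ∀ n, dist (F (φ n) i t) (F (φ n) i q) ≤ ε / 4 := by
      intro n
      rw [dist_eq_norm]
      refine (hL _ _ _ _).trans ?_
      calc L i * |t - q| ≤ c * (ε / (4 * c)) :=
            mul_le_mul ((le_abs_self _).trans (by simp [hc])) hq (abs_nonneg _) hc0.le
        _ = ε / 4 := by field_simp
    calc dist (F (φ m) i t) (F (φ n) i t)
        ≤ dist (F (φ m) i t) (F (φ m) i q) + dist (F (φ m) i q) (F (φ n) i q)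
          + dist (F (φ n) i q) (F (φ n) i t) := dist_triangle4 _ _ _ _
      _ < ε := by
        have := hb m
        have h3 := hb n
        rw [dist_comm] at h3
        linarith
  choose G hG using fun i t => cauchySeq_tendsto_of_complete (hcau i t)
  exact ⟨φ, hφ, G, hG⟩

theorem sum_shift_le {N : ℕ} {b : Z2 → ℂ} (hb : ∀ k, k ∉ KN N → b k = 0) (K : Finset Z2)
    (k : Z2) : ∑ l ∈ K, ‖b (k - l)‖ ^ 2 ≤ sq (KN N) b := by
  classical
  have h1 : ∑ l ∈ K, ‖b (k - l)‖ ^ 2 = ∑ l ∈ K.filter (fun l => k - l ∈ KN N), ‖b (k - l)‖ ^ 2 := by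
    rw [Finset.sum_filter]
    refine Finset.sum_congr rfl (fun l _ => ?_)
    split_ifs with h
    · rfl
    · rw [hb _ h]; simp
  have h2 : ∑ l ∈ K.filter (fun l => k - l ∈ KN N), ‖b (k - l)‖ ^ 2
      = ∑ m ∈ (K.filter (fun l => k - l ∈ KN N)).image (fun l => k - l), ‖b m‖ ^ 2 := by
    rw [Finset.sum_image]
    intro x _ y _ hxy
    simpa using hxy
  rw [h1, h2]
  unfold sq
  refine Finset.sum_le_sum_of_subset_of_nonneg ?_ (fun _ _ _ => by positivity)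
  intro m hm
  rw [Finset.mem_image] at hm
  obtain ⟨l, hl, rfl⟩ := hm
  exact (Finset.mem_filter.mp hl).2

theorem sum_bound {q : Z2 → Z2 → ℝ} {c : ℝ} {k : Z2} (hq : ∀ l, |q l k| ≤ c) (hc : 0 ≤ c)
    {N : ℕ} {a b : Z2 → ℂ} (hb : ∀ k, k ∉ KN N → b k = 0) (K : Finset Z2) :
    ∑ l ∈ K, ‖(q l k : ℂ) * a l * b (k - l)‖
      ≤ c * (Real.sqrt (∑ l ∈ K, ‖a l‖ ^ 2) * Real.sqrt (sq (KN N) b)) := by
  have h1 : ∀ l ∈ K, ‖(q l k : ℂ) * a l * b (k - l)‖ ≤ c * (‖a l‖ * ‖b (k - l)‖) := by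
    intro l _
    rw [norm_mul, norm_mul, Complex.norm_real, Real.norm_eq_abs, mul_assoc]
    exact mul_le_mul_of_nonneg_right (hq l) (by positivity)
  refine (Finset.sum_le_sum h1).trans ?_
  rw [← Finset.mul_sum]
  refine mul_le_mul_of_nonneg_left ?_ hc
  refine (Real.sum_mul_le_sqrt_mul_sqrt K (fun l => ‖a l‖) (fun l => ‖b (k - l)‖)).trans ?_
  refine mul_le_mul_of_nonneg_left ?_ (Real.sqrt_nonneg _)
  exact Real.sqrt_le_sqrt (sum_shift_le hb K k)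

theorem Nl_bound {q : Z2 → Z2 → ℝ} {c : ℝ} {k : Z2} (hq : ∀ l, |q l k| ≤ c) (hc : 0 ≤ c)
    {N : ℕ} {a b : Z2 → ℂ} (hb : ∀ k, k ∉ KN N → b k = 0) (K : Finset Z2) :
    ‖Nl q K a b k‖ ≤ c * (Real.sqrt (sq K a) * Real.sqrt (sq (KN N) b)) :=
  (norm_sum_le _ _).trans (sum_bound hq hc hb K)

theorem nm_ge {M : ℕ} {l : Z2} (hl : l ≠ 0) (h : l ∉ KN M) : (M : ℝ) + 1 ≤ nm l := by
  rw [mem_KN] at h
  push Not at h
  obtain ⟨i, hi⟩ := h hl
  have h1 : (M : ℤ) + 1 ≤ |l i| := by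
    by_cases h2 : -(M : ℤ) ≤ l i
    · have := hi h2
      rw [abs_of_pos (by omega)]
      omega
    · push Not at h2
      rw [abs_of_neg (by omega)]
      omega
  have h2 : ((M : ℝ) + 1) ≤ |(l i : ℝ)| := by exact_mod_cast h1
  have h3 : |(l i : ℝ)| ≤ nm l := by
    apply abs_le_of_sq_le_sq _ (nm_nonneg _)
    rw [nm_sq]
    unfold dt
    fin_cases i
    · simp only [Fin.zero_eta]
      nlinarith [mul_self_nonneg (l 1 : ℝ)]
    · simp only [Fin.mk_one]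
      nlinarith [mul_self_nonneg (l 0 : ℝ)]
  exact h2.trans h3

theorem KN_mono {M N : ℕ} (h : M ≤ N) : KN M ⊆ KN N := by
  intro k hk
  rw [mem_KN] at hk ⊢
  refine ⟨hk.1, fun i => ?_⟩
  have := hk.2 i
  constructor <;> omega

theorem tail_bound {q : Z2 → Z2 → ℝ} {c : ℝ} {k : Z2} (hq : ∀ l, |q l k| ≤ c) (hc : 0 ≤ c)
    {M N : ℕ} (hMN : M ≤ N) {a b : Z2 → ℂ} (hb : ∀ k, k ∉ KN N → b k = 0) :
    ‖Nl q (KN N) a b k - Nl q (KN M) a b k‖
      ≤ c * (Real.sqrt (gq (KN N) a) / (M + 1) * Real.sqrt (sq (KN N) b)) := by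
  classical
  have h1 : Nl q (KN N) a b k - Nl q (KN M) a b k
      = ∑ l ∈ KN N \ KN M, (q l k : ℂ) * a l * b (k - l) := by
    unfold Nl
    rw [← Finset.sum_sdiff (KN_mono hMN)]
    ring
  rw [h1]
  refine (norm_sum_le _ _).trans ((sum_bound hq hc hb _).trans ?_)
  refine mul_le_mul_of_nonneg_left ?_ hc
  refine mul_le_mul_of_nonneg_right ?_ (Real.sqrt_nonneg _)
  rw [le_div_iff₀ (by positivity)]
  have h2 : Real.sqrt (∑ l ∈ KN N \ KN M, ‖a l‖ ^ 2) * (M + 1)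
      = Real.sqrt ((∑ l ∈ KN N \ KN M, ‖a l‖ ^ 2) * (M + 1) ^ 2) := by
    rw [Real.sqrt_mul' _ (by positivity), Real.sqrt_sq (by positivity)]
  rw [h2]
  apply Real.sqrt_le_sqrt
  rw [Finset.sum_mul]
  unfold gq
  calc ∑ l ∈ KN N \ KN M, ‖a l‖ ^ 2 * ((M : ℝ) + 1) ^ 2
      ≤ ∑ l ∈ KN N \ KN M, nm l ^ 2 * ‖a l‖ ^ 2 := by
        refine Finset.sum_le_sum (fun l hl => ?_)
        rw [Finset.mem_sdiff] at hl
        have h3 := nm_ge (mem_KN.mp hl.1).1 hl.2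
        rw [mul_comm]
        refine mul_le_mul_of_nonneg_right ?_ (by positivity)
        exact pow_le_pow_left₀ (by positivity) h3 2
    _ ≤ ∑ l ∈ KN N, nm l ^ 2 * ‖a l‖ ^ 2 :=
        Finset.sum_le_sum_of_subset_of_nonneg Finset.sdiff_subset (fun _ _ _ => by positivity)

theorem le_sq {K : Finset Z2} {a : Z2 → ℂ} {k : Z2} (hk : k ∈ K) :
    ‖a k‖ ≤ Real.sqrt (sq K a) := by
  apply Real.le_sqrt_of_sq_le
  exact Finset.single_le_sum (f := fun k => ‖a k‖ ^ 2) (fun _ _ => by positivity) hk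

theorem Fa_bound {κ ν g : ℝ} (hκ : 0 ≤ κ) (hν : 0 ≤ ν) (hg : 0 ≤ g) {N : ℕ} {a b : Z2 → ℂ}
    (ha : ∀ k, k ∉ KN N → a k = 0) {k : Z2} (hk : k ∈ KN N) {X Y : ℝ}
    (hX : Real.sqrt (sq (KN N) a) ≤ X) (hY : Real.sqrt (sq (KN N) b) ≤ Y) :
    ‖Fa κ ν g (KN N) a b k‖ ≤ ν * κ ^ 2 * nm k ^ 2 * X + κ * nm k * (X * X) + g * Y := by
  have hX0 : 0 ≤ X := (Real.sqrt_nonneg _).trans hX
  have hY0 : 0 ≤ Y := (Real.sqrt_nonneg _).trans hY
  unfold Fa
  refine (norm_sub_le _ _).trans ?_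
  refine add_le_add ((norm_add_le _ _).trans (add_le_add ?_ ?_)) ?_
  · rw [norm_mul, norm_neg, Complex.norm_real, Real.norm_eq_abs, abs_of_nonneg (by positivity)]
    exact mul_le_mul_of_nonneg_left ((le_sq hk).trans hX) (by positivity)
  · refine (Nl_bound (fun l => abs_qa_le hκ l k) (mul_nonneg hκ (nm_nonneg _)) ha _).trans ?_
    refine mul_le_mul_of_nonneg_left ?_ (mul_nonneg hκ (nm_nonneg _))
    exact mul_le_mul hX hX (Real.sqrt_nonneg _) hX0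
  · rw [norm_mul, norm_mul, Complex.norm_I, one_mul, Complex.norm_real, Real.norm_eq_abs, abs_div,
      abs_mul, abs_of_nonneg hg, abs_of_nonneg (nm_nonneg k)]
    have h4 : g * |(k 0 : ℝ)| / nm k ≤ g := by
      rw [div_le_iff₀ (nm_pos (mem_KN.mp hk).1)]
      exact mul_le_mul_of_nonneg_left (abs_k0_le k) hg
    exact mul_le_mul h4 ((le_sq hk).trans hY) (norm_nonneg _) hg

theorem Fb_bound {κ : ℝ} (hκ : 0 ≤ κ) {N : ℕ} {a b : Z2 → ℂ}
    (hb : ∀ k, k ∉ KN N → b k = 0) {k : Z2} {X Y : ℝ}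
    (hX : Real.sqrt (sq (KN N) a) ≤ X) (hY : Real.sqrt (sq (KN N) b) ≤ Y) :
    ‖Fb κ (KN N) a b k‖ ≤ κ * nm k * (X * Y) := by
  have hX0 : 0 ≤ X := (Real.sqrt_nonneg _).trans hX
  refine (Nl_bound (fun l => abs_qt_le hκ l k) (mul_nonneg hκ (nm_nonneg _)) hb _).trans ?_
  refine mul_le_mul_of_nonneg_left ?_ (mul_nonneg hκ (nm_nonneg _))
  exact mul_le_mul hX hY (Real.sqrt_nonneg _) hX0

/-- interchange of limits -/
theorem interchange {I : ℕ → ℂ} {J : ℕ → ℕ → ℂ} {Jm : ℕ → ℂ} {Jl : ℂ} {h : ℕ → ℝ}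
    (h1 : ∀ M, ∀ᶠ n in atTop, ‖I n - J M n‖ ≤ h M) (hh : Tendsto h atTop (𝓝 0))
    (h2 : ∀ M, Tendsto (J M) atTop (𝓝 (Jm M))) (h3 : Tendsto Jm atTop (𝓝 Jl)) :
    Tendsto I atTop (𝓝 Jl) := by
  rw [Metric.tendsto_atTop']
  intro ε hε
  have e1 : ∀ᶠ M in atTop, h M < ε / 3 := (tendsto_order.1 hh).2 _ (by positivity)
  have e2 : ∀ᶠ M in atTop, dist (Jm M) Jl < ε / 3 :=
    (Metric.tendsto_nhds.mp h3) _ (by positivity)
  obtain ⟨M, hM1, hM2⟩ := (e1.and e2).exists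
  have e3 : ∀ᶠ n in atTop, dist (J M n) (Jm M) < ε / 3 :=
    (Metric.tendsto_nhds.mp (h2 M)) _ (by positivity)
  obtain ⟨n0, hn0⟩ := eventually_atTop.mp ((h1 M).and e3)
  refine ⟨n0, fun n hn => ?_⟩
  obtain ⟨f1, f2⟩ := hn0 n hn.le
  calc dist (I n) Jl ≤ dist (I n) (J M n) + dist (J M n) (Jm M) + dist (Jm M) Jl :=
        dist_triangle4 _ _ _ _
    _ < ε := by
      rw [dist_eq_norm (I n)]
      linarith

end Pool.Agent.V1183.BQ
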