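import Mathlib
import Pool.Agent.V1183.BQ.Lim

/-!
Approximate solutions with uniform bounds.
-/

open Set Finset ComplexConjugate Filter Topology Metric MeasureTheory intervalIntegral

namespace Pool.Agent.V1183.BQ

/-- Lipschitz constant of the velocity modes -/
noncomputable def La (κ ν g X Y : ℝ) (k : Z2) : ℝ :=
  ν * κ ^ 2 * nm k ^ 2 * X + κ * nm k * (X * X) + g * Y
/-- Lipschitz constant of the temperature modes -/
noncomputable def Lb (κ X Y : ℝ) (k : Z2) : ℝ := κ * nm k * (X * Y)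

structure Apx (κ ν g X Y : ℝ) (N : ℕ) (A B : ℝ → Z2 → ℂ) : Prop where
  s1 : ∀ t k, k ∉ KN N → A t k = 0
  s2 : ∀ t k, k ∉ KN N → B t k = 0
  r1 : ∀ t k, A t (-k) = conj (A t k)
  r2 : ∀ t k, B t (-k) = conj (B t k)
  n1 : ∀ t, Real.sqrt (sq (KN N) (A t)) ≤ X
  n2 : ∀ t, Real.sqrt (sq (KN N) (B t)) ≤ Y
  c1 : ∀ k s t, ‖A t k - A s k‖ ≤ La κ ν g X Y k * |t - s|
  c2 : ∀ k s t, ‖B t k - B s k‖ ≤ Lb κ X Y k * |t - s|
  i1 : ∀ s ∈ Icc (-(N : ℝ)) N, ∀ t ∈ Icc (-(N : ℝ)) N, ∀ k ∈ KN N,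
    A t k - A s k = ∫ τ in s..t, Fa κ ν g (KN N) (A τ) (B τ) k
  i2 : ∀ s ∈ Icc (-(N : ℝ)) N, ∀ t ∈ Icc (-(N : ℝ)) N, ∀ k ∈ KN N,
    B t k - B s k = ∫ τ in s..t, Fb κ (KN N) (A τ) (B τ) k
  en : ∀ s ∈ Icc (-(N : ℝ)) N, ∀ t ∈ Icc (-(N : ℝ)) N, s ≤ t →
    2 * (ν * κ ^ 2) * ∫ τ in s..t, gq (KN N) (A τ) ≤ X ^ 2 + 2 * g * (Y * X) * (t - s)

theorem cont_of_lip {f : ℝ → ℂ} {L : ℝ} (h : ∀ s t, ‖f t - f s‖ ≤ L * |t - s|) :
    Continuous f := by
  have hL : LipschitzWith (Real.toNNReal L) f := by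
    refine LipschitzWith.of_dist_le' (K := L) ?_
    intro x y
    rw [dist_eq_norm, Real.dist_eq]
    exact h y x
  exact hL.continuous

theorem cont_gq {A : ℝ → Z2 → ℂ} {K : Finset Z2} (h : ∀ k, Continuous fun t => A t k) :
    Continuous fun t => gq K (A t) := by
  unfold gq
  exact continuous_finsetSum _ fun k _ => continuous_const.mul ((h k).norm.pow 2)

theorem cont_Nl {A B : ℝ → Z2 → ℂ} {q : Z2 → Z2 → ℝ} {K : Finset Z2}
    (h : ∀ k, Continuous fun t => A t k) (h' : ∀ k, Continuous fun t => B t k) (k : Z2) :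
    Continuous fun t => Nl q K (A t) (B t) k := by
  unfold Nl
  exact continuous_finsetSum _ fun l _ => (continuous_const.mul (h l)).mul (h' _)

theorem cont_Fa {A B : ℝ → Z2 → ℂ} {κ ν g : ℝ} {K : Finset Z2}
    (h : ∀ k, Continuous fun t => A t k) (h' : ∀ k, Continuous fun t => B t k) (k : Z2) :
    Continuous fun t => Fa κ ν g K (A t) (B t) k := by
  unfold Fa
  exact ((continuous_const.mul (h k)).add (cont_Nl h h k)).sub (continuous_const.mul (h' k))

theorem cont_Fb {A B : ℝ → Z2 → ℂ} {κ : ℝ} {K : Finset Z2}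
    (h : ∀ k, Continuous fun t => A t k) (h' : ∀ k, Continuous fun t => B t k) (k : Z2) :
    Continuous fun t => Fb κ K (A t) (B t) k := cont_Nl h h' k

theorem apx {κ ν g : ℝ} (hκ : 0 < κ) (hν : 0 < ν) (hg : 0 ≤ g) {y : Z2 → ℂ}
    (hy : ∀ k, y (-k) = conj (y k)) {Y : ℝ} (hY0 : 0 ≤ Y)
    (hY : ∀ K : Finset Z2, sq K y ≤ Y ^ 2) (N : ℕ) :
    ∃ A B : ℝ → Z2 → ℂ, Apx κ ν g (g / (ν * κ ^ 2) * Y) Y N A B ∧ ∀ k ∈ KN N, B 0 k = y k := by
  classical
  set X : ℝ := g / (ν * κ ^ 2) * Y with hXdef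
  have hX0 : 0 ≤ X := by positivity
  set T : ℝ := (N : ℝ) + 1 with hT
  have hT0 : 0 < T := by positivity
  set yN : Z2 → ℂ := fun k => if k ∈ KN N then y k else 0 with hyN
  have hyN1 : ∀ k, yN (-k) = conj (yN k) := by
    intro k
    simp only [hyN]
    by_cases h : k ∈ KN N
    · rw [if_pos (KN_neg _ h), if_pos h, hy]
    · have h' : -k ∉ KN N := fun h2 => h (by simpa using KN_neg _ h2)
      rw [if_neg h', if_neg h, map_zero]
  have hyN2 : ∀ k, k ∉ KN N → yN k = 0 := fun k hk => by simp [hyN, hk]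
  have hsqy : sq (KN N) yN ≤ Y ^ 2 := by
    have : sq (KN N) yN = sq (KN N) y := by
      unfold sq
      exact Finset.sum_congr rfl (fun k hk => by simp [hyN, hk])
    rw [this]
    exact hY _
  obtain ⟨a, b, sa, sb, ra, rb, da, db, b0, nb, na⟩ := galF hκ hν hg N hT0 hyN1 hyN2
  have hmT : -T ≤ T := by linarith
  let cl : ℝ → ℝ := fun t => (projIcc (-T) T hmT t : ℝ)
  have hcl : ∀ t, cl t ∈ Icc (-T) T := fun t => (projIcc (-T) T hmT t).2
  have hcl1 : ∀ t ∈ Icc (-T) T, cl t = t := by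
    intro t ht
    simp only [cl]
    rw [projIcc_of_mem hmT ht]
  have hcll : ∀ s t, |cl t - cl s| ≤ |t - s| := by
    intro s t
    have := (LipschitzWith.projIcc hmT).dist_le_mul t s
    rw [NNReal.coe_one, one_mul, Real.dist_eq] at this
    exact this
  have hnX : ∀ t ∈ Icc (-T) T, Real.sqrt (sq (KN N) (a t)) ≤ X := by
    intro t ht
    rw [hXdef, Real.sqrt_le_left (by positivity), mul_pow]
    exact (na t ht).trans (mul_le_mul_of_nonneg_left hsqy (by positivity))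
  have hnY : ∀ t ∈ Icc (-T) T, Real.sqrt (sq (KN N) (b t)) ≤ Y := by
    intro t ht
    rw [Real.sqrt_le_left hY0, nb t ht]
    exact hsqy
  have hLa0 : ∀ k, 0 ≤ La κ ν g X Y k := fun k => by
    unfold La
    have := nm_nonneg k
    positivity
  have hLb0 : ∀ k, 0 ≤ Lb κ X Y k := fun k => by
    unfold Lb
    have := nm_nonneg k
    positivity
  have lipa : ∀ k, ∀ s ∈ Icc (-T) T, ∀ t ∈ Icc (-T) T,
      ‖a t k - a s k‖ ≤ La κ ν g X Y k * |t - s| := by
    intro k s hs t ht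
    by_cases hk : k ∈ KN N
    · have := Convex.norm_image_sub_le_of_norm_hasDerivWithin_le (f := fun s => a s k)
        (f' := fun t => Fa κ ν g (KN N) (a t) (b t) k) (s := Icc (-T) T) (C := La κ ν g X Y k)
        (fun x hx => da x hx k hk)
        (fun x hx => Fa_bound hκ.le hν.le hg (sa x) hk (hnX x hx) (hnY x hx))
        (convex_Icc _ _) hs ht
      rwa [Real.norm_eq_abs] at this
    · rw [sa t k hk, sa s k hk, sub_zero, norm_zero]
      exact mul_nonneg (hLa0 k) (abs_nonneg _)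
  have lipb : ∀ k, ∀ s ∈ Icc (-T) T, ∀ t ∈ Icc (-T) T,
      ‖b t k - b s k‖ ≤ Lb κ X Y k * |t - s| := by
    intro k s hs t ht
    by_cases hk : k ∈ KN N
    · have := Convex.norm_image_sub_le_of_norm_hasDerivWithin_le (f := fun s => b s k)
        (f' := fun t => Fb κ (KN N) (a t) (b t) k) (s := Icc (-T) T) (C := Lb κ X Y k)
        (fun x hx => db x hx k hk)
        (fun x hx => Fb_bound hκ.le (sb x) (hnX x hx) (hnY x hx))
        (convex_Icc _ _) hs ht
      rwa [Real.norm_eq_abs] at this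
    · rw [sb t k hk, sb s k hk, sub_zero, norm_zero]
      exact mul_nonneg (hLb0 k) (abs_nonneg _)
  have hA : ∀ k s t, ‖a (cl t) k - a (cl s) k‖ ≤ La κ ν g X Y k * |t - s| := fun k s t =>
    (lipa k _ (hcl s) _ (hcl t)).trans (mul_le_mul_of_nonneg_left (hcll s t) (hLa0 k))
  have hB : ∀ k s t, ‖b (cl t) k - b (cl s) k‖ ≤ Lb κ X Y k * |t - s| := fun k s t =>
    (lipb k _ (hcl s) _ (hcl t)).trans (mul_le_mul_of_nonneg_left (hcll s t) (hLb0 k))
  have cA : ∀ k, Continuous fun t => a (cl t) k := fun k => cont_of_lip (hA k)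
  have cB : ∀ k, Continuous fun t => b (cl t) k := fun k => cont_of_lip (hB k)
  have hin : ∀ t ∈ Icc (-(N : ℝ)) N, t ∈ Ioo (-T) T := by
    intro t ht
    rw [hT]
    constructor <;> linarith [ht.1, ht.2]
  have huI : ∀ s ∈ Icc (-(N : ℝ)) N, ∀ t ∈ Icc (-(N : ℝ)) N, ∀ x ∈ uIcc s t,
      x ∈ Ioo (-T) T := fun s hs t ht x hx =>
    hin x (uIcc_subset_Icc hs ht hx)
  have hEq : ∀ x ∈ Ioo (-T) T, ∀ᶠ z in 𝓝 x, cl z = z := fun x hx => by
    filter_upwards [Ioo_mem_nhds hx.1 hx.2] with z hz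
    exact hcl1 z ⟨hz.1.le, hz.2.le⟩
  have dA : ∀ x ∈ Ioo (-T) T, ∀ k ∈ KN N, HasDerivAt (fun t => a (cl t) k)
      (Fa κ ν g (KN N) (a (cl x)) (b (cl x)) k) x := by
    intro x hx k hk
    have h1 := (da x ⟨hx.1.le, hx.2.le⟩ k hk).hasDerivAt (Icc_mem_nhds hx.1 hx.2)
    rw [hcl1 x ⟨hx.1.le, hx.2.le⟩]
    refine h1.congr_of_eventuallyEq ?_
    filter_upwards [hEq x hx] with z hz
    rw [hz]
  have dB : ∀ x ∈ Ioo (-T) T, ∀ k ∈ KN N, HasDerivAt (fun t => b (cl t) k)
      (Fb κ (KN N) (a (cl x)) (b (cl x)) k) x := by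
    intro x hx k hk
    have h1 := (db x ⟨hx.1.le, hx.2.le⟩ k hk).hasDerivAt (Icc_mem_nhds hx.1 hx.2)
    rw [hcl1 x ⟨hx.1.le, hx.2.le⟩]
    refine h1.congr_of_eventuallyEq ?_
    filter_upwards [hEq x hx] with z hz
    rw [hz]
  refine ⟨fun t => a (cl t), fun t => b (cl t), ⟨fun t k hk => sa _ k hk,
    fun t k hk => sb _ k hk, fun t k => ra _ k, fun t k => rb _ k, fun t => hnX _ (hcl t),
    fun t => hnY _ (hcl t), hA, hB, ?_, ?_, ?_⟩, ?_⟩
  · intro s hs t ht k hk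
    exact (integral_eq_sub_of_hasDerivAt (fun x hx => dA x (huI s hs t ht x hx) k hk)
      ((cont_Fa cA cB k).intervalIntegrable _ _)).symm
  · intro s hs t ht k hk
    exact (integral_eq_sub_of_hasDerivAt (fun x hx => dB x (huI s hs t ht x hx) k hk)
      ((cont_Fb cA cB k).intervalIntegrable _ _)).symm
  · intro s hs t ht hst
    -- energy
    have hd : ∀ x ∈ Ioo (-T) T, HasDerivAt (fun t => sq (KN N) (a (cl t)))
        (∑ k ∈ KN N, 2 * (conj (a (cl x) k) * Fa κ ν g (KN N) (a (cl x)) (b (cl x)) k).re) x := by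
      intro x hx
      unfold sq
      refine HasDerivAt.fun_sum (fun k hk => ?_)
      have h1 := (dA x hx k hk).norm_sq
      rw [Complex.inner, mul_comm (Fa κ ν g (KN N) (a (cl x)) (b (cl x)) k)] at h1
      exact h1
    have hcont : Continuous fun x => ∑ k ∈ KN N,
        2 * (conj (a (cl x) k) * Fa κ ν g (KN N) (a (cl x)) (b (cl x)) k).re :=
      continuous_finsetSum _ fun k _ => continuous_const.mul (Complex.continuous_re.comp
        ((Complex.continuous_conj.comp (cA k)).mul (cont_Fa cA cB k)))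
    have h1 := integral_eq_sub_of_hasDerivAt (fun x hx => hd x (huI s hs t ht x hx))
      (hcont.intervalIntegrable _ _)
    have h2 : ∀ x ∈ Icc s t, (∑ k ∈ KN N,
        2 * (conj (a (cl x) k) * Fa κ ν g (KN N) (a (cl x)) (b (cl x)) k).re)
        ≤ 2 * g * (Y * X) - 2 * (ν * κ ^ 2) * gq (KN N) (a (cl x)) := by
      intro x _
      have h3 := energy_a (κ := κ) (ν := ν) hg (N := N) (a := a (cl x)) (b := b (cl x))
        (ra _) (sa _)
      rw [Complex.re_sum] at h3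
      rw [← Finset.mul_sum]
      have h4 : Real.sqrt (sq (KN N) (b (cl x))) * Real.sqrt (sq (KN N) (a (cl x))) ≤ Y * X :=
        mul_le_mul (hnY _ (hcl x)) (hnX _ (hcl x)) (Real.sqrt_nonneg _) hY0
      have h5 := mul_le_mul_of_nonneg_left h4 hg
      linarith
    have cg : Continuous fun x => gq (KN N) (a (cl x)) := cont_gq cA
    have i1 : IntervalIntegrable (fun _ : ℝ => 2 * g * (Y * X)) volume s t :=
      continuous_const.intervalIntegrable s t
    have i2 : IntervalIntegrable (fun x : ℝ => 2 * (ν * κ ^ 2) * gq (KN N) (a (cl x)))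
        volume s t := (continuous_const.mul cg).intervalIntegrable s t
    have h3 := integral_mono_on (μ := volume) hst (hcont.intervalIntegrable s t)
      (i1.sub i2) h2
    rw [h1] at h3
    have h3' := intervalIntegral.integral_sub i1 i2
    rw [intervalIntegral.integral_const, intervalIntegral.integral_const_mul] at h3'
    have h3 := h3.trans_eq h3'
    have h4 : sq (KN N) (a (cl s)) ≤ X ^ 2 := by
      have := hnX _ (hcl s)
      rwa [Real.sqrt_le_left hX0] at this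
    have h5 := sq_nonneg' (KN N) (a (cl t))
    rw [smul_eq_mul] at h3
    have h6 : (t - s) * (2 * g * (Y * X)) = 2 * g * (Y * X) * (t - s) := by ring
    linarith
  · intro k hk
    show b (cl 0) k = y k
    rw [hcl1 0 ⟨by linarith, by linarith⟩, b0]
    simp [hyN, hk]

end Pool.Agent.V1183.BQ
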