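import Mathlib
import Pool.Agent.V1183.BQ.Seq

/-!
Passage to the limit in the Galerkin approximations.
-/

open Set Finset ComplexConjugate Filter Topology Metric MeasureTheory

namespace Pool.Agent.V1183.BQ

/-- full bilinear term -/
noncomputable def NlI (q : Z2 → Z2 → ℝ) (a b : Z2 → ℂ) (k : Z2) : ℂ :=
  ∑' l, (q l k : ℂ) * a l * b (k - l)

theorem tsum_lim {f : Z2 → ℂ} (hf : Summable f) (h0 : f 0 = 0) :
    Tendsto (fun M : ℕ => ∑ l ∈ KN M, f l) atTop (𝓝 (∑' l, f l)) := by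
  have h1 : Tendsto box atTop atTop := by
    refine tendsto_atTop_finset_of_monotone ?_ ?_
    · intro M N h k hk
      rw [mem_box] at hk ⊢
      intro i
      have := hk i
      constructor <;> omega
    · intro k
      refine ⟨(k 0).natAbs + (k 1).natAbs, ?_⟩
      rw [mem_box]
      intro i
      fin_cases i <;> simp only [Fin.zero_eta, Fin.mk_one] <;> constructor <;> omega
  have h2 := hf.hasSum.comp h1
  refine h2.congr (fun M => ?_)
  simp only [Function.comp, KN]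
  rw [Finset.sum_erase _ h0]

theorem sum_shift_le' {b : Z2 → ℂ} {Y : ℝ} (hb : ∀ K, sq K b ≤ Y ^ 2) (K : Finset Z2)
    (k : Z2) : ∑ l ∈ K, ‖b (k - l)‖ ^ 2 ≤ Y ^ 2 := by
  classical
  have h2 : ∑ l ∈ K, ‖b (k - l)‖ ^ 2 = ∑ m ∈ K.image (fun l => k - l), ‖b m‖ ^ 2 := by
    rw [Finset.sum_image]
    intro x _ y _ hxy
    simpa using hxy
  rw [h2]
  exact hb _

theorem sum_bound' {q : Z2 → Z2 → ℝ} {c : ℝ} {k : Z2} (hq : ∀ l, |q l k| ≤ c) (hc : 0 ≤ c)
    {a b : Z2 → ℂ} {X Y : ℝ} (hX : 0 ≤ X) (hY : 0 ≤ Y) (ha : ∀ K, sq K a ≤ X ^ 2)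
    (hb : ∀ K, sq K b ≤ Y ^ 2) (K : Finset Z2) :
    ∑ l ∈ K, ‖(q l k : ℂ) * a l * b (k - l)‖ ≤ c * (X * Y) := by
  have h1 : ∀ l ∈ K, ‖(q l k : ℂ) * a l * b (k - l)‖ ≤ c * (‖a l‖ * ‖b (k - l)‖) := by
    intro l _
    rw [norm_mul, norm_mul, Complex.norm_real, Real.norm_eq_abs, mul_assoc]
    exact mul_le_mul_of_nonneg_right (hq l) (by positivity)
  refine (Finset.sum_le_sum h1).trans ?_
  rw [← Finset.mul_sum]
  refine mul_le_mul_of_nonneg_left ?_ hc
  refine (Real.sum_mul_le_sqrt_mul_sqrt K (fun l => ‖a l‖) (fun l => ‖b (k - l)‖)).trans ?_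
  refine mul_le_mul ?_ ?_ (Real.sqrt_nonneg _) hX
  · rw [Real.sqrt_le_left hX]
    exact ha K
  · rw [Real.sqrt_le_left hY]
    exact sum_shift_le' hb K k

theorem summable_NlI {q : Z2 → Z2 → ℝ} {c : ℝ} {k : Z2} (hq : ∀ l, |q l k| ≤ c) (hc : 0 ≤ c)
    {a b : Z2 → ℂ} {X Y : ℝ} (hX : 0 ≤ X) (hY : 0 ≤ Y) (ha : ∀ K, sq K a ≤ X ^ 2)
    (hb : ∀ K, sq K b ≤ Y ^ 2) : Summable fun l => (q l k : ℂ) * a l * b (k - l) :=
  Summable.of_norm (summable_of_sum_le (fun _ => norm_nonneg _)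
    (sum_bound' hq hc hX hY ha hb))

theorem sq_le_supp {N : ℕ} {a : Z2 → ℂ} (ha : ∀ k, k ∉ KN N → a k = 0) (K : Finset Z2) :
    sq K a ≤ sq (KN N) a := by
  have h := sum_shift_le (b := fun k => a (-k)) (N := N) (fun k hk => ha _ (fun h => hk
    (by simpa using KN_neg _ h))) K 0
  simp only [zero_sub, neg_neg] at h
  unfold sq
  refine h.trans (le_of_eq ?_)
  unfold sq
  refine Finset.sum_nbij' (fun l => -l) (fun l => -l) (fun l hl => KN_neg l hl)
    (fun l hl => KN_neg l hl) (fun l _ => neg_neg l) (fun l _ => neg_neg l) (fun l _ => rfl)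

theorem pass {q : Z2 → Z2 → ℝ} {c : ℝ} {k : Z2} (hq : ∀ l, |q l k| ≤ c) (hc : 0 ≤ c)
    {Nn : ℕ → ℕ} (hN : Tendsto Nn atTop atTop) {A B : ℕ → ℝ → Z2 → ℂ} {Ai Bi : ℝ → Z2 → ℂ}
    (sA : ∀ n t k, k ∉ KN (Nn n) → A n t k = 0) (sB : ∀ n t k, k ∉ KN (Nn n) → B n t k = 0)
    (cA : ∀ n k, Continuous fun t => A n t k) (cB : ∀ n k, Continuous fun t => B n t k)
    {X Y C : ℝ} (hX : 0 ≤ X) (hY : 0 ≤ Y)
    (nA : ∀ n t, Real.sqrt (sq (KN (Nn n)) (A n t)) ≤ X)
    (nB : ∀ n t, Real.sqrt (sq (KN (Nn n)) (B n t)) ≤ Y)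
    {s t : ℝ} (hst : s ≤ t)
    (en : ∀ᶠ n in atTop, ∫ τ in s..t, gq (KN (Nn n)) (A n τ) ≤ C)
    (nAi : ∀ t K, sq K (Ai t) ≤ X ^ 2) (nBi : ∀ t K, sq K (Bi t) ≤ Y ^ 2)
    (z : ∀ t, Ai t 0 = 0)
    (lA : ∀ t k, Tendsto (fun n => A n t k) atTop (𝓝 (Ai t k)))
    (lB : ∀ t k, Tendsto (fun n => B n t k) atTop (𝓝 (Bi t k)))
    (cAi : ∀ k, Continuous fun t => Ai t k) (cBi : ∀ k, Continuous fun t => Bi t k) :
    Tendsto (fun n => ∫ τ in s..t, Nl q (KN (Nn n)) (A n τ) (B n τ) k) atTop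
      (𝓝 (∫ τ in s..t, NlI q (Ai τ) (Bi τ) k)) := by
  have hsqA : ∀ n t K, Real.sqrt (sq K (A n t)) ≤ X := fun n t K =>
    (Real.sqrt_le_sqrt (sq_le_supp (sA n t) K)).trans (nA n t)
  refine interchange (J := fun M n => ∫ τ in s..t, Nl q (KN M) (A n τ) (B n τ) k)
    (Jm := fun M => ∫ τ in s..t, Nl q (KN M) (Ai τ) (Bi τ) k)
    (h := fun M => c * Y * ((t - s) + C) * (1 / ((M : ℝ) + 1))) ?_ ?_ ?_ ?_
  · intro M
    filter_upwards [en, hN.eventually_ge_atTop M] with n hen hMn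
    rw [← intervalIntegral.integral_sub
      ((cont_Nl (cA n) (cB n) k).intervalIntegrable _ _)
      ((cont_Nl (cA n) (cB n) k).intervalIntegrable _ _)]
    have h1 : ∀ τ ∈ Set.Ioc s t, ‖Nl q (KN (Nn n)) (A n τ) (B n τ) k
        - Nl q (KN M) (A n τ) (B n τ) k‖
        ≤ c * Y * (1 / ((M : ℝ) + 1)) * (1 + gq (KN (Nn n)) (A n τ)) := by
      intro τ _
      refine (tail_bound hq hc hMn (sB n τ)).trans ?_
      have hgq0 : 0 ≤ gq (KN (Nn n)) (A n τ) :=
        Finset.sum_nonneg fun _ _ => by positivity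
      have h2 : Real.sqrt (gq (KN (Nn n)) (A n τ)) ≤ 1 + gq (KN (Nn n)) (A n τ) := by
        rw [Real.sqrt_le_left (by positivity)]
        nlinarith
      calc c * (Real.sqrt (gq (KN (Nn n)) (A n τ)) / (M + 1)
            * Real.sqrt (sq (KN (Nn n)) (B n τ)))
          ≤ c * ((1 + gq (KN (Nn n)) (A n τ)) / (M + 1) * Y) := by
            refine mul_le_mul_of_nonneg_left ?_ hc
            refine mul_le_mul ?_ (nB n τ) (Real.sqrt_nonneg _) (by positivity)
            exact div_le_div_of_nonneg_right h2 (by positivity)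
        _ = c * Y * (1 / ((M : ℝ) + 1)) * (1 + gq (KN (Nn n)) (A n τ)) := by ring
    have cg : Continuous fun τ => gq (KN (Nn n)) (A n τ) := cont_gq (cA n)
    refine (intervalIntegral.norm_integral_le_of_norm_le hst
      (Filter.Eventually.of_forall h1)
      ((continuous_const.mul (continuous_const.add cg)).intervalIntegrable _ _)).trans ?_
    have h3 : ∫ τ in s..t, c * Y * (1 / ((M : ℝ) + 1)) * (1 + gq (KN (Nn n)) (A n τ))
        = c * Y * (1 / ((M : ℝ) + 1)) * ((t - s) + ∫ τ in s..t, gq (KN (Nn n)) (A n τ)) := by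
      rw [intervalIntegral.integral_const_mul]
      congr 1
      have := intervalIntegral.integral_add (μ := volume) (a := s) (b := t)
        (f := fun _ => (1:ℝ)) (g := fun τ => gq (KN (Nn n)) (A n τ))
        (continuous_const.intervalIntegrable _ _) (cg.intervalIntegrable _ _)
      rw [intervalIntegral.integral_const, smul_eq_mul, mul_one] at this
      exact this
    rw [h3]
    calc c * Y * (1 / ((M : ℝ) + 1)) * ((t - s) + ∫ τ in s..t, gq (KN (Nn n)) (A n τ))
        ≤ c * Y * (1 / ((M : ℝ) + 1)) * ((t - s) + C) := by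
          refine mul_le_mul_of_nonneg_left ?_ (by positivity)
          linarith
      _ = _ := by ring
  · have := (tendsto_one_div_add_atTop_nhds_zero_nat (𝕜 := ℝ)).const_mul (c * Y * ((t - s) + C))
    rwa [mul_zero] at this
  · intro M
    refine intervalIntegral.tendsto_integral_filter_of_dominated_convergence
      (fun _ => c * (X * Y)) ?_ ?_ intervalIntegrable_const ?_
    · exact Filter.Eventually.of_forall fun n =>
        (cont_Nl (cA n) (cB n) k).aestronglyMeasurable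
    · refine Filter.Eventually.of_forall fun n => Filter.Eventually.of_forall fun τ _ => ?_
      refine (Nl_bound hq hc (sB n τ) _).trans ?_
      refine mul_le_mul_of_nonneg_left ?_ hc
      exact mul_le_mul (hsqA n τ _) (nB n τ) (Real.sqrt_nonneg _) hX
    · refine Filter.Eventually.of_forall fun τ _ => ?_
      unfold Nl
      exact tendsto_finsetSum _ fun l _ =>
        ((tendsto_const_nhds).mul (lA τ l)).mul (lB τ (k - l))
  · refine intervalIntegral.tendsto_integral_filter_of_dominated_convergence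
      (fun _ => c * (X * Y)) ?_ ?_ intervalIntegrable_const ?_
    · exact Filter.Eventually.of_forall fun n =>
        (cont_Nl cAi cBi k).aestronglyMeasurable
    · refine Filter.Eventually.of_forall fun n => Filter.Eventually.of_forall fun τ _ => ?_
      exact (norm_sum_le _ _).trans (sum_bound' hq hc hX hY (nAi τ) (nBi τ) _)
    · refine Filter.Eventually.of_forall fun τ _ => ?_
      exact tsum_lim (summable_NlI hq hc hX hY (nAi τ) (nBi τ)) (by rw [z]; ring)

/-- The limit objects. -/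
structure Lims (κ ν g X Y : ℝ) (A B : ℝ → Z2 → ℂ) : Prop where
  z1 : ∀ t, A t 0 = 0
  z2 : ∀ t, B t 0 = 0
  r1 : ∀ t k, A t (-k) = conj (A t k)
  r2 : ∀ t k, B t (-k) = conj (B t k)
  n1 : ∀ t K, sq K (A t) ≤ X ^ 2
  n2 : ∀ t K, sq K (B t) ≤ Y ^ 2
  c1 : ∀ k s t, ‖A t k - A s k‖ ≤ La κ ν g X Y k * |t - s|
  c2 : ∀ k s t, ‖B t k - B s k‖ ≤ Lb κ X Y k * |t - s|
  i1 : ∀ s t, s ≤ t → ∀ k, k ≠ 0 → A t k - A s k
    = ∫ τ in s..t, (-((ν * κ ^ 2 * nm k ^ 2 : ℝ) : ℂ) * A τ k + NlI (qa κ) (A τ) (A τ) k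
        - Complex.I * ((g * k 0 / nm k : ℝ) : ℂ) * B τ k)
  i2 : ∀ s t, s ≤ t → ∀ k, k ≠ 0 → B t k - B s k = ∫ τ in s..t, NlI (qt κ) (A τ) (B τ) k
  en : ∀ s t, s ≤ t → ∀ K, 2 * (ν * κ ^ 2) * ∫ τ in s..t, gq K (A τ)
    ≤ X ^ 2 + 2 * g * (Y * X) * (t - s)

theorem exists_mem_KN {k : Z2} (hk : k ≠ 0) : ∃ N, ∀ M, N ≤ M → k ∈ KN M := by
  refine ⟨(k 0).natAbs + (k 1).natAbs, fun M hM => ?_⟩
  rw [mem_KN]
  refine ⟨hk, fun i => ?_⟩
  have : (M : ℤ) ≥ (k 0).natAbs + (k 1).natAbs := by exact_mod_cast hM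
  fin_cases i <;> simp only [Fin.zero_eta, Fin.mk_one] <;> constructor <;> omega

theorem not_mem_zero (N : ℕ) : (0 : Z2) ∉ KN N := by simp [KN]

theorem exists_lims {κ ν g X Y : ℝ} (hκ : 0 < κ) (hν : 0 < ν) (hX : 0 ≤ X)
    (hY : 0 ≤ Y) {A B : ℕ → ℝ → Z2 → ℂ} (H : ∀ n, Apx κ ν g X Y n (A n) (B n)) :
    ∃ φ : ℕ → ℕ, StrictMono φ ∧ ∃ Ai Bi : ℝ → Z2 → ℂ, Lims κ ν g X Y Ai Bi ∧
      (∀ t k, Tendsto (fun n => A (φ n) t k) atTop (𝓝 (Ai t k))) ∧
      (∀ t k, Tendsto (fun n => B (φ n) t k) atTop (𝓝 (Bi t k))) := by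
  classical
  -- extraction
  have hbA : ∀ n k t, ‖A n t k‖ ≤ X := by
    intro n k t
    by_cases hk : k ∈ KN n
    · exact (le_sq hk).trans ((H n).n1 t)
    · rw [(H n).s1 t k hk, norm_zero]; exact hX
  have hbB : ∀ n k t, ‖B n t k‖ ≤ Y := by
    intro n k t
    by_cases hk : k ∈ KN n
    · exact (le_sq hk).trans ((H n).n2 t)
    · rw [(H n).s2 t k hk, norm_zero]; exact hY
  obtain ⟨φ, hφ, G, hG⟩ := diag (ι := Z2) (E := ℂ × ℂ)
    (fun n k t => (A n t k, B n t k)) (fun _ => max X Y)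
    (fun k => max (La κ ν g X Y k) (Lb κ X Y k))
    (by
      intro n k t
      rw [Prod.norm_mk]
      exact max_le_max (hbA n k t) (hbB n k t))
    (by
      intro n k s t
      rw [Prod.mk_sub_mk, Prod.norm_mk]
      refine max_le ?_ ?_
      · exact ((H n).c1 k s t).trans (mul_le_mul_of_nonneg_right (le_max_left _ _) (abs_nonneg _))
      · exact ((H n).c2 k s t).trans
          (mul_le_mul_of_nonneg_right (le_max_right _ _) (abs_nonneg _)))
  set Ai : ℝ → Z2 → ℂ := fun t k => (G k t).1 with hAi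
  set Bi : ℝ → Z2 → ℂ := fun t k => (G k t).2 with hBi
  have lA : ∀ t k, Tendsto (fun n => A (φ n) t k) atTop (𝓝 (Ai t k)) := fun t k =>
    (continuous_fst.tendsto _).comp (hG k t)
  have lB : ∀ t k, Tendsto (fun n => B (φ n) t k) atTop (𝓝 (Bi t k)) := fun t k =>
    (continuous_snd.tendsto _).comp (hG k t)
  have hφt : Tendsto φ atTop atTop := hφ.tendsto_atTop
  have cA : ∀ n k, Continuous fun t => A n t k := fun n k => cont_of_lip ((H n).c1 k)
  have cB : ∀ n k, Continuous fun t => B n t k := fun n k => cont_of_lip ((H n).c2 k)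
  have c1 : ∀ k s t, ‖Ai t k - Ai s k‖ ≤ La κ ν g X Y k * |t - s| := fun k s t =>
    le_of_tendsto ((lA t k).sub (lA s k)).norm
      (Filter.Eventually.of_forall fun n => (H (φ n)).c1 k s t)
  have c2 : ∀ k s t, ‖Bi t k - Bi s k‖ ≤ Lb κ X Y k * |t - s| := fun k s t =>
    le_of_tendsto ((lB t k).sub (lB s k)).norm
      (Filter.Eventually.of_forall fun n => (H (φ n)).c2 k s t)
  have cAi : ∀ k, Continuous fun t => Ai t k := fun k => cont_of_lip (c1 k)
  have cBi : ∀ k, Continuous fun t => Bi t k := fun k => cont_of_lip (c2 k)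
  have n1 : ∀ t K, sq K (Ai t) ≤ X ^ 2 := by
    intro t K
    have h1 : Tendsto (fun n => sq K (A (φ n) t)) atTop (𝓝 (sq K (Ai t))) :=
      tendsto_finsetSum _ fun k _ => (lA t k).norm.pow 2
    refine le_of_tendsto h1 (Filter.Eventually.of_forall fun n => ?_)
    have := (Real.sqrt_le_sqrt (sq_le_supp ((H (φ n)).s1 t) K)).trans ((H (φ n)).n1 t)
    rwa [Real.sqrt_le_left hX] at this
  have n2 : ∀ t K, sq K (Bi t) ≤ Y ^ 2 := by
    intro t K
    have h1 : Tendsto (fun n => sq K (B (φ n) t)) atTop (𝓝 (sq K (Bi t))) :=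
      tendsto_finsetSum _ fun k _ => (lB t k).norm.pow 2
    refine le_of_tendsto h1 (Filter.Eventually.of_forall fun n => ?_)
    have := (Real.sqrt_le_sqrt (sq_le_supp ((H (φ n)).s2 t) K)).trans ((H (φ n)).n2 t)
    rwa [Real.sqrt_le_left hY] at this
  have z1 : ∀ t, Ai t 0 = 0 := fun t =>
    tendsto_nhds_unique (lA t 0) (by simp only [(H _).s1 t 0 (not_mem_zero _)]; exact tendsto_const_nhds)
  have z2 : ∀ t, Bi t 0 = 0 := fun t =>
    tendsto_nhds_unique (lB t 0) (by simp only [(H _).s2 t 0 (not_mem_zero _)]; exact tendsto_const_nhds)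
  -- windows
  have hwin : ∀ s t : ℝ, ∀ᶠ n in atTop, s ∈ Icc (-((φ n : ℕ) : ℝ)) (φ n) ∧
      t ∈ Icc (-((φ n : ℕ) : ℝ)) (φ n) := by
    intro s t
    have h1 : Tendsto (fun n => ((φ n : ℕ) : ℝ)) atTop atTop :=
      tendsto_natCast_atTop_atTop.comp hφt
    filter_upwards [h1.eventually_ge_atTop (max |s| |t|)] with n hn
    have hs : |s| ≤ φ n := (le_max_left _ _).trans hn
    have ht : |t| ≤ φ n := (le_max_right _ _).trans hn
    exact ⟨abs_le.mp hs, abs_le.mp ht⟩
  have hen : ∀ s t : ℝ, s ≤ t → ∀ᶠ n in atTop, ∫ τ in s..t, gq (KN (φ n)) (A (φ n) τ)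
      ≤ (X ^ 2 + 2 * g * (Y * X) * (t - s)) / (2 * (ν * κ ^ 2)) := by
    intro s t hst
    filter_upwards [hwin s t] with n hn
    rw [le_div_iff₀ (by positivity), mul_comm]
    exact (H (φ n)).en s hn.1 t hn.2 hst
  refine ⟨φ, hφ, Ai, Bi, ⟨z1, z2, ?_, ?_, n1, n2, c1, c2, ?_, ?_, ?_⟩, lA, lB⟩
  · intro t k
    refine tendsto_nhds_unique (lA t (-k)) ?_
    simp only [(H _).r1]
    exact (Complex.continuous_conj.tendsto _).comp (lA t k)
  · intro t k
    refine tendsto_nhds_unique (lB t (-k)) ?_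
    simp only [(H _).r2]
    exact (Complex.continuous_conj.tendsto _).comp (lB t k)
  · intro s t hst k hk
    have hp := pass (q := qa κ) (c := κ * nm k) (k := k) (fun l => abs_qa_le hκ.le l k)
      (mul_nonneg hκ.le (nm_nonneg _)) hφt (A := fun n => A (φ n)) (B := fun n => A (φ n))
      (fun n => (H (φ n)).s1) (fun n => (H (φ n)).s1) (fun n => cA (φ n)) (fun n => cA (φ n))
      hX hX (fun n => (H (φ n)).n1) (fun n => (H (φ n)).n1) hst (hen s t hst) n1 n1 z1 lA lA
      cAi cAi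
    have hl : ∀ {F : ℕ → ℝ → Z2 → ℂ} {Fi : ℝ → Z2 → ℂ} {R : ℝ} (c : ℂ)
        (_ : ∀ n t k, ‖F n t k‖ ≤ R) (_ : ∀ n k, Continuous fun t => F n t k)
        (_ : ∀ t k, Tendsto (fun n => F n t k) atTop (𝓝 (Fi t k))),
        Tendsto (fun n => ∫ τ in s..t, c * F n τ k) atTop (𝓝 (∫ τ in s..t, c * Fi τ k)) := by
      intro F Fi R c hR hc hl
      refine intervalIntegral.tendsto_integral_filter_of_dominated_convergence
        (fun _ => ‖c‖ * R) ?_ ?_ intervalIntegrable_const ?_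
      · exact Filter.Eventually.of_forall fun n =>
          (continuous_const.mul (hc n k)).aestronglyMeasurable
      · refine Filter.Eventually.of_forall fun n => Filter.Eventually.of_forall fun τ _ => ?_
        rw [norm_mul]
        exact mul_le_mul_of_nonneg_left (hR _ _ _) (norm_nonneg _)
      · exact Filter.Eventually.of_forall fun τ _ => (hl τ k).const_mul c
    have h1 := hl (F := fun n => A (φ n)) (-((ν * κ ^ 2 * nm k ^ 2 : ℝ) : ℂ))
      (fun n t k => hbA _ _ _) (fun n k => cA _ k) lA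
    have h2 := hl (F := fun n => B (φ n)) (Complex.I * ((g * k 0 / nm k : ℝ) : ℂ))
      (fun n t k => hbB _ _ _) (fun n k => cB _ k) lB
    have hsum := (h1.add hp).sub h2
    have hint : IntervalIntegrable (fun τ => NlI (qa κ) (Ai τ) (Ai τ) k) volume s t := by
      rw [intervalIntegrable_iff, uIoc_of_le hst]
      refine Measure.integrableOn_of_bounded (M := κ * nm k * (X * X)) (by simp) ?_ ?_
      · refine aestronglyMeasurable_of_tendsto_ae (u := atTop)
          (f := fun (M : ℕ) τ => Nl (qa κ) (KN M) (Ai τ) (Ai τ) k)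
          (fun M => (cont_Nl cAi cAi k).aestronglyMeasurable)
          (Filter.Eventually.of_forall fun τ => tsum_lim
            (summable_NlI (fun l => abs_qa_le hκ.le l k) (mul_nonneg hκ.le (nm_nonneg _))
              hX hX (n1 τ) (n1 τ)) (by rw [z1]; ring))
      · refine Filter.Eventually.of_forall fun τ => ?_
        refine le_of_tendsto (tsum_lim
            (summable_NlI (fun l => abs_qa_le hκ.le l k) (mul_nonneg hκ.le (nm_nonneg _))
              hX hX (n1 τ) (n1 τ)) (by rw [z1]; ring)).norm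
            (Filter.Eventually.of_forall fun M => ?_)
        exact (norm_sum_le _ _).trans (sum_bound' (fun l => abs_qa_le hκ.le l k)
          (mul_nonneg hκ.le (nm_nonneg _)) hX hX (n1 τ) (n1 τ) _)
    have e1 : (∫ τ in s..t, (-((ν * κ ^ 2 * nm k ^ 2 : ℝ) : ℂ) * Ai τ k
        + NlI (qa κ) (Ai τ) (Ai τ) k - Complex.I * ((g * k 0 / nm k : ℝ) : ℂ) * Bi τ k))
        = (∫ τ in s..t, -((ν * κ ^ 2 * nm k ^ 2 : ℝ) : ℂ) * Ai τ k)
          + (∫ τ in s..t, NlI (qa κ) (Ai τ) (Ai τ) k)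
          - ∫ τ in s..t, Complex.I * ((g * k 0 / nm k : ℝ) : ℂ) * Bi τ k := by
      rw [intervalIntegral.integral_sub, intervalIntegral.integral_add]
      · exact (continuous_const.mul (cAi k)).intervalIntegrable _ _
      · exact hint
      · exact ((continuous_const.mul (cAi k)).intervalIntegrable _ _).add hint
      · exact (continuous_const.mul (cBi k)).intervalIntegrable _ _
    rw [e1]
    refine tendsto_nhds_unique ((lA t k).sub (lA s k)) (hsum.congr' ?_)
    obtain ⟨N0, hN0⟩ := exists_mem_KN hk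
    filter_upwards [hwin s t, hφt.eventually_ge_atTop N0] with n hn hn0
    rw [(H (φ n)).i1 s hn.1 t hn.2 k (hN0 _ hn0)]
    unfold Fa
    rw [intervalIntegral.integral_sub, intervalIntegral.integral_add]
    · exact (continuous_const.mul (cA (φ n) k)).intervalIntegrable _ _
    · exact (cont_Nl (cA (φ n)) (cA (φ n)) k).intervalIntegrable _ _
    · exact ((continuous_const.mul (cA (φ n) k)).add
        (cont_Nl (cA (φ n)) (cA (φ n)) k)).intervalIntegrable _ _
    · exact (continuous_const.mul (cB (φ n) k)).intervalIntegrable _ _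
  · intro s t hst k hk
    have hp := pass (q := qt κ) (c := κ * nm k) (k := k) (fun l => abs_qt_le hκ.le l k)
      (mul_nonneg hκ.le (nm_nonneg _)) hφt (A := fun n => A (φ n)) (B := fun n => B (φ n))
      (fun n => (H (φ n)).s1) (fun n => (H (φ n)).s2) (fun n => cA (φ n)) (fun n => cB (φ n))
      hX hY (fun n => (H (φ n)).n1) (fun n => (H (φ n)).n2) hst (hen s t hst) n1 n2 z1 lA lB
      cAi cBi
    refine tendsto_nhds_unique ((lB t k).sub (lB s k)) (hp.congr' ?_)
    obtain ⟨N0, hN0⟩ := exists_mem_KN hk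
    filter_upwards [hwin s t, hφt.eventually_ge_atTop N0] with n hn hn0
    rw [(H (φ n)).i2 s hn.1 t hn.2 k (hN0 _ hn0)]
    rfl
  · intro s t hst K
    have hg1 : ∀ n τ, gq K (A (φ n) τ) ≤ gq (KN (φ n)) (A (φ n) τ) := by
      intro n τ
      unfold gq
      have e : ∑ k ∈ K, nm k ^ 2 * ‖A (φ n) τ k‖ ^ 2
          = ∑ k ∈ K.filter (fun k => k ∈ KN (φ n)), nm k ^ 2 * ‖A (φ n) τ k‖ ^ 2 := by
        rw [Finset.sum_filter]
        refine Finset.sum_congr rfl (fun k _ => ?_)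
        split_ifs with h
        · rfl
        · rw [(H (φ n)).s1 τ k h]; simp
      rw [e]
      refine Finset.sum_le_sum_of_subset_of_nonneg ?_ (fun _ _ _ => by positivity)
      intro k hk
      exact (Finset.mem_filter.mp hk).2
    have hlim : Tendsto (fun n => ∫ τ in s..t, gq K (A (φ n) τ)) atTop
        (𝓝 (∫ τ in s..t, gq K (Ai τ))) := by
      refine intervalIntegral.tendsto_integral_filter_of_dominated_convergence
        (fun _ => ∑ k ∈ K, nm k ^ 2 * X ^ 2) ?_ ?_ intervalIntegrable_const ?_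
      · exact Filter.Eventually.of_forall fun n => (cont_gq (cA (φ n))).aestronglyMeasurable
      · refine Filter.Eventually.of_forall fun n => Filter.Eventually.of_forall fun τ _ => ?_
        rw [Real.norm_eq_abs, abs_of_nonneg (Finset.sum_nonneg fun _ _ => by positivity)]
        refine Finset.sum_le_sum fun k _ => ?_
        refine mul_le_mul_of_nonneg_left ?_ (by positivity)
        exact pow_le_pow_left₀ (norm_nonneg _) (hbA _ _ _) 2
      · exact Filter.Eventually.of_forall fun τ _ =>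
          tendsto_finsetSum _ fun k _ => ((lA τ k).norm.pow 2).const_mul _
    refine le_of_tendsto (hlim.const_mul _) ?_
    filter_upwards [hwin s t] with n hn
    refine le_trans ?_ ((H (φ n)).en s hn.1 t hn.2 hst)
    refine mul_le_mul_of_nonneg_left ?_ (by positivity)
    exact intervalIntegral.integral_mono_on hst
      ((cont_gq (cA (φ n))).intervalIntegrable _ _) ((cont_gq (cA (φ n))).intervalIntegrable _ _)
      (fun τ _ => hg1 n τ)

end Pool.Agent.V1183.BQ
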