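import Mathlib
import Pool.Agent.V1183.BQ.Fn
import Pool.Agent.V1183.BQ.Pass

/-!
From limits of Fourier-Galerkin approximations to solutions.
-/

open MeasureTheory Set Filter Topology ComplexConjugate
open scoped InnerProductSpace

namespace Pool.Agent.V1183.BQ

/-- rotated mode -/
def perp (i : Fin 2) (k : Z2) : ℝ := if i = 0 then -(k 1 : ℝ) else (k 0 : ℝ)

/-- velocity coefficients from the scalar ones -/
noncomputable def uh (i : Fin 2) (a : Z2 → ℂ) (k : Z2) : ℂ :=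
  Complex.I * ((perp i k / nm k : ℝ) : ℂ) * a k

theorem uh_conj {a : Z2 → ℂ} (ha : ∀ k, a (-k) = conj (a k)) (i : Fin 2) (k : Z2) :
    uh i a (-k) = conj (uh i a k) := by
  have hp : perp i (-k) = - perp i k := by
    unfold perp
    split_ifs <;> simp only [Pi.neg_apply] <;> push_cast <;> ring
  unfold uh
  rw [ha, nm_neg, hp]
  simp only [map_mul, Complex.conj_I, Complex.conj_ofReal]
  push_cast
  ring

theorem perp_sq (k : Z2) : perp 0 k ^ 2 + perp 1 k ^ 2 = nm k ^ 2 := by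
  rw [nm_sq]
  simp only [perp, dt, if_true, if_neg (show ¬((1 : Fin 2) = 0) by decide)]
  ring

theorem uh_norm_sq (a : Z2 → ℂ) (k : Z2) (i : Fin 2) :
    ‖uh i a k‖ ^ 2 = (perp i k / nm k) ^ 2 * ‖a k‖ ^ 2 := by
  unfold uh
  rw [norm_mul, norm_mul, Complex.norm_I, one_mul, Complex.norm_real, mul_pow, Real.norm_eq_abs,
    sq_abs]

theorem uh_le (a : Z2 → ℂ) (k : Z2) (i : Fin 2) : ‖uh i a k‖ ^ 2 ≤ ‖a k‖ ^ 2 := by
  rw [uh_norm_sq]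
  have h : (perp i k / nm k) ^ 2 ≤ 1 := by
    by_cases hk : k = 0
    · rw [hk, nm_zero, div_zero]; norm_num
    · rw [div_pow, div_le_one (by have := nm_pos hk; positivity), ← perp_sq]
      fin_cases i
      · simp only [Fin.zero_eta]; nlinarith [sq_nonneg (perp 1 k)]
      · simp only [Fin.mk_one]; nlinarith [sq_nonneg (perp 0 k)]
  exact mul_le_of_le_one_left (by positivity) h

theorem grad_uh (a : Z2 → ℂ) (k : Z2) :
    nm k ^ 2 * (‖uh 0 a k‖ ^ 2 + ‖uh 1 a k‖ ^ 2) = nm k ^ 2 * ‖a k‖ ^ 2 := by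
  by_cases hk : k = 0
  · rw [hk, nm_zero]; ring
  · have h := nm_pos hk
    rw [uh_norm_sq, uh_norm_sq]
    have h2 : (perp 0 k / nm k) ^ 2 * ‖a k‖ ^ 2 + (perp 1 k / nm k) ^ 2 * ‖a k‖ ^ 2
        = (perp 0 k ^ 2 + perp 1 k ^ 2) / nm k ^ 2 * ‖a k‖ ^ 2 := by ring
    rw [h2, perp_sq, div_self (by positivity), one_mul]

section
variable {L ν g : ℝ} {u : Fin 2 → L2} {θ : L2} {a b : Z2 → ℂ}

theorem fc_zero_int (f : L2) : fc f 0 = ((∫ y, f y ∂mu : ℝ) : ℂ) := by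
  unfold fc
  rw [← integral_complex_ofReal]
  refine integral_congr_ae (Filter.Eventually.of_forall fun y => ?_)
  simp only [neg_zero, ek_zero, mul_one]

theorem mean_of_fc {f : L2} (h : fc f 0 = 0) : ∫ y, f y ∂mu = 0 := by
  rw [fc_zero_int] at h
  exact_mod_cast h

theorem div_eq (u : Fin 2 → L2) (k : Z2) (y : T2) :
    adv L u k y
      = (((2 * Real.pi / L * k 0 : ℝ) : ℂ) * Complex.I) * ((u 0 y : ℂ) * ek k y)
        + (((2 * Real.pi / L * k 1 : ℝ) : ℂ) * Complex.I) * ((u 1 y : ℂ) * ek k y) := by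
  unfold adv dek
  ring

theorem isH_of (hu : ∀ i k, fc (u i) k = uh i a k) (ha0 : a 0 = 0) : IsH L u := by
  refine ⟨fun i => mean_of_fc ?_, fun k => ?_⟩
  · rw [hu]; unfold uh; rw [ha0, mul_zero]
  · simp only [div_eq]
    rw [integral_add ((int_mul_ek _ _).const_mul _) ((int_mul_ek _ _).const_mul _),
      integral_const_mul, integral_const_mul, int_ek, int_ek, hu, hu]
    simp only [uh, perp, if_true, if_neg (show ¬((1 : Fin 2) = 0) by decide), Pi.neg_apply]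
    push_cast
    ring

theorem temR_eq (hu : ∀ i k, fc (u i) k = uh i a k) (hθ : ∀ k, fc θ k = b k) (k : Z2) :
    temR L u θ k = NlI (qt (2 * Real.pi / L)) a b (-k) := by
  unfold temR
  have e : ∀ y, (θ y : ℂ) * adv L u k y
      = (((2 * Real.pi / L * k 0 : ℝ) : ℂ) * Complex.I) * ((u 0 y : ℂ) * (θ y : ℂ) * ek k y)
        + (((2 * Real.pi / L * k 1 : ℝ) : ℂ) * Complex.I)
          * ((u 1 y : ℂ) * (θ y : ℂ) * ek k y) := by
    intro y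
    rw [div_eq]
    ring
  simp only [e]
  rw [integral_add ((int_mul_mul_ek _ _ _).const_mul _) ((int_mul_mul_ek _ _ _).const_mul _),
    integral_const_mul, integral_const_mul]
  have h0 := hasSum_mul (u 0) θ (-k)
  have h1 := hasSum_mul (u 1) θ (-k)
  rw [neg_neg] at h0 h1
  have h2 := (h0.mul_left (((2 * Real.pi / L * k 0 : ℝ) : ℂ) * Complex.I)).add
    (h1.mul_left (((2 * Real.pi / L * k 1 : ℝ) : ℂ) * Complex.I))
  rw [← h2.tsum_eq]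
  unfold NlI
  refine tsum_congr fun l => ?_
  rw [hu, hu, hθ]
  simp only [uh, perp, if_true, if_neg (show ¬((1 : Fin 2) = 0) by decide), qt, cr, Pi.neg_apply]
  have hI : Complex.I * Complex.I = -1 := Complex.I_mul_I
  push_cast
  linear_combination ((2 * (Real.pi : ℂ) / L) * ((l 0 : ℂ) * (k 1 : ℂ) - (l 1 : ℂ) * (k 0 : ℂ))
    / (nm l : ℂ) * a l * b (-k - l)) * hI

theorem int7 {F1 F2 F3 F4 F5 F6 F7 : T2 → ℂ} (i1 : Integrable F1 mu) (i2 : Integrable F2 mu)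
    (i3 : Integrable F3 mu) (i4 : Integrable F4 mu) (i5 : Integrable F5 mu)
    (i6 : Integrable F6 mu) (i7 : Integrable F7 mu) :
    ∫ y, (F1 y + F2 y + F3 y + F4 y + F5 y + F6 y + F7 y) ∂mu
      = (∫ y, F1 y ∂mu) + (∫ y, F2 y ∂mu) + (∫ y, F3 y ∂mu) + (∫ y, F4 y ∂mu)
        + (∫ y, F5 y ∂mu) + (∫ y, F6 y ∂mu) + ∫ y, F7 y ∂mu := by
  have j2 : Integrable (fun y => F1 y + F2 y) mu := i1.add i2
  have j3 : Integrable (fun y => F1 y + F2 y + F3 y) mu := j2.add i3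
  have j4 : Integrable (fun y => F1 y + F2 y + F3 y + F4 y) mu := j3.add i4
  have j5 : Integrable (fun y => F1 y + F2 y + F3 y + F4 y + F5 y) mu := j4.add i5
  have j6 : Integrable (fun y => F1 y + F2 y + F3 y + F4 y + F5 y + F6 y) mu := j5.add i6
  rw [integral_add j6 i7, integral_add j5 i6, integral_add j4 i5, integral_add j3 i4,
    integral_add j2 i3, integral_add i1 i2]

/-- right-hand side of the scalar velocity equation -/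
noncomputable def Ev (κ ν g : ℝ) (a b : Z2 → ℂ) (k : Z2) : ℂ :=
  -((ν * κ ^ 2 * nm k ^ 2 : ℝ) : ℂ) * a k + NlI (qa κ) a a k
    - Complex.I * ((g * k 0 / nm k : ℝ) : ℂ) * b k

theorem momR_split (hu : ∀ i k, fc (u i) k = uh i a k) (hθ : ∀ k, fc θ k = b k) (k : Z2)
    (c : Fin 2 → ℝ) :
    momR L ν g u θ k c
      = (∑' l, (((2 * Real.pi / L : ℝ) : ℂ) * Complex.I
          * ((k 0 : ℂ) * uh 0 a l + (k 1 : ℂ) * uh 1 a l)
          * ((c 0 : ℂ) * uh 0 a (-k - l) + (c 1 : ℂ) * uh 1 a (-k - l))))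
        - (ν : ℂ) * (((2 * Real.pi / L) ^ 2 * ((k 0 : ℝ) ^ 2 + (k 1 : ℝ) ^ 2) : ℝ) : ℂ)
          * ((c 0 : ℂ) * uh 0 a (-k) + (c 1 : ℂ) * uh 1 a (-k))
        + (g : ℂ) * (c 1 : ℂ) * b (-k) := by
  unfold momR
  set κ : ℝ := 2 * Real.pi / L with hκ
  set Q : ℂ := (((κ) ^ 2 * ((k 0 : ℝ) ^ 2 + (k 1 : ℝ) ^ 2) : ℝ) : ℂ) with hQ
  have e : ∀ y, (dotf c u y * adv L u k y
      + (ν : ℂ) * dotf c u y * lek L k y + (g : ℂ) * (c 1 : ℂ) * (θ y : ℂ) * ek k y)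
      = ((c 0 : ℂ) * (((κ * k 0 : ℝ) : ℂ) * Complex.I)) * ((u 0 y : ℂ) * (u 0 y : ℂ) * ek k y)
      + ((c 1 : ℂ) * (((κ * k 0 : ℝ) : ℂ) * Complex.I)) * ((u 0 y : ℂ) * (u 1 y : ℂ) * ek k y)
      + ((c 0 : ℂ) * (((κ * k 1 : ℝ) : ℂ) * Complex.I)) * ((u 1 y : ℂ) * (u 0 y : ℂ) * ek k y)
      + ((c 1 : ℂ) * (((κ * k 1 : ℝ) : ℂ) * Complex.I)) * ((u 1 y : ℂ) * (u 1 y : ℂ) * ek k y)
      + (-(ν : ℂ) * Q * (c 0 : ℂ)) * ((u 0 y : ℂ) * ek k y)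
      + (-(ν : ℂ) * Q * (c 1 : ℂ)) * ((u 1 y : ℂ) * ek k y)
      + ((g : ℂ) * (c 1 : ℂ)) * ((θ y : ℂ) * ek k y) := by
    intro y
    rw [div_eq]
    unfold dotf lek
    rw [← hκ, ← hQ]
    push_cast
    ring
  simp only [e]
  have i1 := (int_mul_mul_ek (u 0) (u 0) k).const_mul
    ((c 0 : ℂ) * (((κ * k 0 : ℝ) : ℂ) * Complex.I))
  have i2 := (int_mul_mul_ek (u 0) (u 1) k).const_mul
    ((c 1 : ℂ) * (((κ * k 0 : ℝ) : ℂ) * Complex.I))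
  have i3 := (int_mul_mul_ek (u 1) (u 0) k).const_mul
    ((c 0 : ℂ) * (((κ * k 1 : ℝ) : ℂ) * Complex.I))
  have i4 := (int_mul_mul_ek (u 1) (u 1) k).const_mul
    ((c 1 : ℂ) * (((κ * k 1 : ℝ) : ℂ) * Complex.I))
  have i5 := (int_mul_ek (u 0) k).const_mul (-(ν : ℂ) * Q * (c 0 : ℂ))
  have i6 := (int_mul_ek (u 1) k).const_mul (-(ν : ℂ) * Q * (c 1 : ℂ))
  have i7 := (int_mul_ek θ k).const_mul ((g : ℂ) * (c 1 : ℂ))
  rw [int7 i1 i2 i3 i4 i5 i6 i7]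
  simp only [integral_const_mul, int_ek]
  rw [hu, hu, hθ]
  have h00 := hasSum_mul (u 0) (u 0) (-k)
  have h01 := hasSum_mul (u 0) (u 1) (-k)
  have h10 := hasSum_mul (u 1) (u 0) (-k)
  have h11 := hasSum_mul (u 1) (u 1) (-k)
  rw [neg_neg] at h00 h01 h10 h11
  have h2 := (((h00.mul_left ((c 0 : ℂ) * (((κ * k 0 : ℝ) : ℂ) * Complex.I))).add
    (h01.mul_left ((c 1 : ℂ) * (((κ * k 0 : ℝ) : ℂ) * Complex.I)))).add
    (h10.mul_left ((c 0 : ℂ) * (((κ * k 1 : ℝ) : ℂ) * Complex.I)))).add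
    (h11.mul_left ((c 1 : ℂ) * (((κ * k 1 : ℝ) : ℂ) * Complex.I)))
  rw [← h2.tsum_eq]
  have e3 : ∀ l, (c 0 : ℂ) * (((κ * k 0 : ℝ) : ℂ) * Complex.I) * (fc (u 0) l * fc (u 0) (-k - l))
      + (c 1 : ℂ) * (((κ * k 0 : ℝ) : ℂ) * Complex.I) * (fc (u 0) l * fc (u 1) (-k - l))
      + (c 0 : ℂ) * (((κ * k 1 : ℝ) : ℂ) * Complex.I) * (fc (u 1) l * fc (u 0) (-k - l))
      + (c 1 : ℂ) * (((κ * k 1 : ℝ) : ℂ) * Complex.I) * (fc (u 1) l * fc (u 1) (-k - l))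
      = ((κ : ℝ) : ℂ) * Complex.I * ((k 0 : ℂ) * uh 0 a l + (k 1 : ℂ) * uh 1 a l)
          * ((c 0 : ℂ) * uh 0 a (-k - l) + (c 1 : ℂ) * uh 1 a (-k - l)) := by
    intro l
    rw [hu, hu, hu, hu]
    push_cast
    ring
  simp only [e3]
  ring

theorem momR_eq (hu : ∀ i k, fc (u i) k = uh i a k) (hθ : ∀ k, fc θ k = b k) {k : Z2}
    (hk : k ≠ 0) {c : Fin 2 → ℝ} {lam : ℝ} (h0 : c 0 = -lam * k 1) (h1 : c 1 = lam * k 0) :
    momR L ν g u θ k c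
      = -(Complex.I * ((lam * nm k : ℝ) : ℂ)) * Ev (2 * Real.pi / L) ν g a b (-k) := by
  rw [momR_split hu hθ]
  set κ : ℝ := 2 * Real.pi / L with hκ
  have hnk : (nm k : ℂ) ≠ 0 := by exact_mod_cast (nm_pos hk).ne'
  have hI : Complex.I * Complex.I = -1 := Complex.I_mul_I
  have hsq : (nm k : ℂ) ^ 2 = (k 0 : ℂ) ^ 2 + (k 1 : ℂ) ^ 2 := by
    have h := nm_sq k
    unfold dt at h
    have h2 : (nm k : ℝ) ^ 2 = (k 0 : ℝ) ^ 2 + (k 1 : ℝ) ^ 2 := by rw [h]; ring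
    exact_mod_cast congrArg (fun x : ℝ => (x : ℂ)) h2
  have e1 : (∑' l, ((κ : ℂ) * Complex.I
          * ((k 0 : ℂ) * uh 0 a l + (k 1 : ℂ) * uh 1 a l)
          * ((c 0 : ℂ) * uh 0 a (-k - l) + (c 1 : ℂ) * uh 1 a (-k - l))))
      = -(Complex.I * ((lam * nm k : ℝ) : ℂ)) * NlI (qa κ) a a (-k) := by
    unfold NlI
    rw [← tsum_mul_left]
    refine tsum_congr fun l => ?_
    rw [h0, h1]
    simp only [uh, perp, if_true, if_neg (show ¬((1 : Fin 2) = 0) by decide), qa, cr, dt,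
      Pi.neg_apply, Pi.sub_apply, nm_neg]
    have hkk : (nm k : ℂ) * (nm k : ℂ)⁻¹ = 1 := mul_inv_cancel₀ hnk
    push_cast
    linear_combination ((lam : ℂ) * (κ : ℂ) * a l * a (-k - l) * Complex.I
      * (nm l : ℂ)⁻¹ * (nm (-k - l) : ℂ)⁻¹
      * ((l 0 : ℂ) * (k 1 : ℂ) - (l 1 : ℂ) * (k 0 : ℂ))
      * ((k 1 : ℂ) * (-(k 1 : ℂ) - (l 1 : ℂ)) + (k 0 : ℂ) * (-(k 0 : ℂ) - (l 0 : ℂ)))) * hI
      + ((lam : ℂ) * (κ : ℂ) * a l * a (-k - l) * Complex.I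
      * (nm l : ℂ)⁻¹ * (nm (-k - l) : ℂ)⁻¹
      * ((l 0 : ℂ) * (k 1 : ℂ) - (l 1 : ℂ) * (k 0 : ℂ))
      * ((k 1 : ℂ) * (-(k 1 : ℂ) - (l 1 : ℂ)) + (k 0 : ℂ) * (-(k 0 : ℂ) - (l 0 : ℂ)))) * hkk
  rw [e1]
  unfold Ev
  have e2 : (c 0 : ℂ) * uh 0 a (-k) + (c 1 : ℂ) * uh 1 a (-k)
      = -(Complex.I * ((lam * nm k : ℝ) : ℂ)) * a (-k) := by
    rw [h0, h1]
    simp only [uh, perp, if_true, if_neg (show ¬((1 : Fin 2) = 0) by decide),
      Pi.neg_apply, nm_neg]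
    push_cast
    field_simp
    rw [hsq]
    ring
  rw [e2, nm_neg]
  have e3 : (((κ) ^ 2 * ((k 0 : ℝ) ^ 2 + (k 1 : ℝ) ^ 2) : ℝ) : ℂ)
      = (((κ) ^ 2 * nm k ^ 2 : ℝ) : ℂ) := by
    push_cast
    rw [hsq]
  rw [e3, h1]
  simp only [Pi.neg_apply]
  push_cast
  field_simp
  linear_combination ((lam : ℂ) * (g : ℂ) * (k 0 : ℂ) * b (-k)) * hI

theorem momR_zero (hθ0 : fc θ 0 = 0) (c : Fin 2 → ℝ) : momR L ν g u θ 0 c = 0 := by
  unfold momR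
  have e : ∀ y, (dotf c u y * adv L u 0 y
      + (ν : ℂ) * dotf c u y * lek L 0 y + (g : ℂ) * (c 1 : ℂ) * (θ y : ℂ) * ek 0 y)
      = ((g : ℂ) * (c 1 : ℂ)) * ((θ y : ℂ) * ek 0 y) := by
    intro y
    unfold adv dek lek
    simp only [Pi.zero_apply]
    push_cast
    ring
  simp only [e]
  rw [integral_const_mul, int_ek, neg_zero, hθ0, mul_zero]

theorem dot_int (c : Fin 2 → ℝ) (k : Z2) :
    ∫ y, dotf c u y * ek k y ∂mu = (c 0 : ℂ) * fc (u 0) (-k) + (c 1 : ℂ) * fc (u 1) (-k) := by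
  have e : ∀ y, dotf c u y * ek k y
      = (c 0 : ℂ) * ((u 0 y : ℂ) * ek k y) + (c 1 : ℂ) * ((u 1 y : ℂ) * ek k y) := by
    intro y
    unfold dotf
    push_cast
    ring
  simp only [e]
  rw [integral_add ((int_mul_ek _ _).const_mul _) ((int_mul_ek _ _).const_mul _),
    integral_const_mul, integral_const_mul, int_ek, int_ek]

theorem dot_int_eq (hu : ∀ i k, fc (u i) k = uh i a k) {k : Z2} (hk : k ≠ 0)
    {c : Fin 2 → ℝ} {lam : ℝ} (h0 : c 0 = -lam * k 1) (h1 : c 1 = lam * k 0) :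
    ∫ y, dotf c u y * ek k y ∂mu = -(Complex.I * ((lam * nm k : ℝ) : ℂ)) * a (-k) := by
  have hnk : (nm k : ℂ) ≠ 0 := by exact_mod_cast (nm_pos hk).ne'
  have hsq : (nm k : ℂ) ^ 2 = (k 0 : ℂ) ^ 2 + (k 1 : ℂ) ^ 2 := by
    have h := nm_sq k
    unfold dt at h
    have h2 : (nm k : ℝ) ^ 2 = (k 0 : ℝ) ^ 2 + (k 1 : ℝ) ^ 2 := by rw [h]; ring
    exact_mod_cast congrArg (fun x : ℝ => (x : ℂ)) h2
  rw [dot_int, hu, hu, h0, h1]
  simp only [uh, perp, if_true, if_neg (show ¬((1 : Fin 2) = 0) by decide),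
    Pi.neg_apply, nm_neg]
  push_cast
  field_simp
  rw [hsq]
  ring

theorem exists_lam {k : Z2} (hk : k ≠ 0) {c : Fin 2 → ℝ} (hc : c 0 * k 0 + c 1 * k 1 = 0) :
    ∃ lam : ℝ, c 0 = -lam * k 1 ∧ c 1 = lam * k 0 := by
  have hn : 0 < (k 0 : ℝ) ^ 2 + (k 1 : ℝ) ^ 2 := by
    have h := one_le_dt hk
    unfold dt at h
    nlinarith
  refine ⟨(c 1 * k 0 - c 0 * k 1) / ((k 0 : ℝ) ^ 2 + (k 1 : ℝ) ^ 2), ?_, ?_⟩
  · field_simp
    linear_combination (k 0 : ℝ) * hc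
  · field_simp
    linear_combination (k 1 : ℝ) * hc

end

end Pool.Agent.V1183.BQ
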