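import Mathlib
import Pool.Agent.V1183.BQ.Sol

/-!
Every mean-free temperature is attained by a bounded complete solution.
-/

open MeasureTheory Set Filter Topology ComplexConjugate
open scoped InnerProductSpace

namespace Pool.Agent.V1183.BQ

theorem NlI_int {q : Z2 → Z2 → ℝ} {c : ℝ} {k : Z2} (hq : ∀ l, |q l k| ≤ c) (hc : 0 ≤ c)
    {A B : ℝ → Z2 → ℂ} {X Y : ℝ} (hX : 0 ≤ X) (hY : 0 ≤ Y)
    (nA : ∀ t K, sq K (A t) ≤ X ^ 2) (nB : ∀ t K, sq K (B t) ≤ Y ^ 2) (z : ∀ t, A t 0 = 0)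
    (cA : ∀ k, Continuous fun t => A t k) (cB : ∀ k, Continuous fun t => B t k) (s t : ℝ) :
    IntervalIntegrable (fun τ => NlI q (A τ) (B τ) k) volume s t := by
  rw [intervalIntegrable_iff]
  refine Measure.integrableOn_of_bounded (M := c * (X * Y)) (by simp [uIoc]) ?_ ?_
  · exact aestronglyMeasurable_of_tendsto_ae (u := atTop)
      (f := fun (M : ℕ) τ => Nl q (KN M) (A τ) (B τ) k)
      (fun M => (cont_Nl cA cB k).aestronglyMeasurable)
      (Filter.Eventually.of_forall fun τ => tsum_lim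
        (summable_NlI hq hc hX hY (nA τ) (nB τ)) (by rw [z]; ring))
  · refine Filter.Eventually.of_forall fun τ => ?_
    refine le_of_tendsto (tsum_lim
        (summable_NlI hq hc hX hY (nA τ) (nB τ)) (by rw [z]; ring)).norm
        (Filter.Eventually.of_forall fun M => ?_)
    exact (norm_sum_le _ _).trans (sum_bound' hq hc hX hY (nA τ) (nB τ) _)

theorem Lims.contA {κ ν g X Y : ℝ} {A B : ℝ → Z2 → ℂ} (H : Lims κ ν g X Y A B) (k : Z2) :
    Continuous fun t => A t k := cont_of_lip (H.c1 k)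

theorem Lims.contB {κ ν g X Y : ℝ} {A B : ℝ → Z2 → ℂ} (H : Lims κ ν g X Y A B) (k : Z2) :
    Continuous fun t => B t k := cont_of_lip (H.c2 k)

theorem Lims.contU {κ ν g X Y : ℝ} {A B : ℝ → Z2 → ℂ} (H : Lims κ ν g X Y A B) (i : Fin 2)
    (k : Z2) : Continuous fun t => uh i (A t) k := by
  unfold uh
  exact continuous_const.mul (H.contA k)

theorem sol_of_lims {L ν g X Y : ℝ} (hL : 0 < L) (hν : 0 < ν) (hX : 0 ≤ X) (hY : 0 ≤ Y)
    {A B : ℝ → Z2 → ℂ} (H : Lims (2 * Real.pi / L) ν g X Y A B)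
    {u : ℝ → Fin 2 → L2} {θ : ℝ → L2} (hu : ∀ t i k, fc (u t i) k = uh i (A t) k)
    (hun : ∀ t i, ‖u t i‖ ≤ X) (hθ : ∀ t k, fc (θ t) k = B t k) (hθn : ∀ t, ‖θ t‖ ≤ Y) :
    IsSol L ν g univ u θ := by
  have hκ : 0 ≤ 2 * Real.pi / L := by positivity
  refine ⟨fun t _ => isH_of (hu t) (H.z1 t), fun t _ => mean_of_fc (by rw [hθ, H.z2]), ?_, ?_,
    ?_, ?_, ?_⟩
  · intro i φ
    refine (weak_cont hX (fun t => hun t i) (fun k => ?_) φ).continuousOn
    simp only [hu]
    exact H.contU i k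
  · intro φ
    refine (weak_cont hY hθn (fun k => ?_) φ).continuousOn
    simp only [hθ]
    exact H.contB k
  · intro s _ t _
    rcases lt_or_ge t s with hts | hst
    · rw [Icc_eq_empty (not_le.mpr hts)]
      simp
    · unfold gradSq
      have e : ∀ τ k, ((k 0 : ℝ) ^ 2 + (k 1 : ℝ) ^ 2)
          * (‖fc (u τ 0) k‖ ^ 2 + ‖fc (u τ 1) k‖ ^ 2) = nm k ^ 2 * ‖A τ k‖ ^ 2 := by
        intro τ k
        rw [hu, hu, ← grad_uh, nm_sq]
        unfold dt
        ring
      simp only [e]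
      have hc : ∀ k, Continuous fun τ => nm k ^ 2 * ‖A τ k‖ ^ 2 := fun k =>
        continuous_const.mul ((H.contA k).norm.pow 2)
      have hm : ∀ k, Measurable fun τ => ENNReal.ofReal (nm k ^ 2 * ‖A τ k‖ ^ 2) := fun k =>
        (ENNReal.continuous_ofReal.comp (hc k)).measurable
      rw [lintegral_tsum (fun k => (hm k).aemeasurable)]
      set C : ℝ := (X ^ 2 + 2 * g * (Y * X) * (t - s)) / (2 * (ν * (2 * Real.pi / L) ^ 2)) with hC
      have hden : 0 < 2 * (ν * (2 * Real.pi / L) ^ 2) := by positivity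
      refine lt_of_le_of_lt (b := ENNReal.ofReal C) ?_ ENNReal.ofReal_lt_top
      rw [ENNReal.tsum_eq_iSup_sum]
      refine iSup_le fun K => ?_
      rw [← lintegral_finsetSum _ (fun k _ => hm k)]
      have e2 : ∀ τ, ∑ k ∈ K, ENNReal.ofReal (nm k ^ 2 * ‖A τ k‖ ^ 2)
          = ENNReal.ofReal (gq K (A τ)) := by
        intro τ
        unfold gq
        rw [ENNReal.ofReal_sum_of_nonneg (fun k _ => by positivity)]
      simp only [e2]
      have cg : Continuous fun τ => gq K (A τ) := cont_gq H.contA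
      rw [← ofReal_integral_eq_lintegral_ofReal
        (cg.continuousOn.integrableOn_compact isCompact_Icc)
        (Filter.Eventually.of_forall fun τ => Finset.sum_nonneg fun _ _ => by positivity)]
      apply ENNReal.ofReal_le_ofReal
      rw [integral_Icc_eq_integral_Ioc, ← intervalIntegral.integral_of_le hst, hC,
        le_div_iff₀ hden, mul_comm]
      exact H.en s t hst K
  · intro k c hc s _ t _ hst
    by_cases hk : k = 0
    · subst hk
      have h0 : ∀ τ, momR L ν g (u τ) (θ τ) 0 c = 0 := fun τ =>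
        momR_zero (by rw [hθ, H.z2]) c
      unfold MomEq
      simp only [h0]
      refine ⟨intervalIntegrable_const, ?_⟩
      rw [dot_int, dot_int, neg_zero, hu, hu, hu, hu]
      unfold uh
      rw [H.z1, H.z1]
      simp
    · obtain ⟨lam, h0, h1⟩ := exists_lam hk hc
      have hk' : -k ≠ 0 := neg_ne_zero.mpr hk
      have hN := NlI_int (q := qa (2 * Real.pi / L)) (k := -k) (fun l => abs_qa_le hκ l (-k))
        (mul_nonneg hκ (nm_nonneg _)) hX hX H.n1 H.n1 H.z1 H.contA H.contA s t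
      have hE : IntervalIntegrable (fun τ => Ev (2 * Real.pi / L) ν g (A τ) (B τ) (-k))
          volume s t := by
        unfold Ev
        exact (((continuous_const.mul (H.contA (-k))).intervalIntegrable _ _).add hN).sub
          ((continuous_const.mul (H.contB (-k))).intervalIntegrable _ _)
      have hm : ∀ τ, momR L ν g (u τ) (θ τ) k c
          = -(Complex.I * ((lam * nm k : ℝ) : ℂ)) * Ev (2 * Real.pi / L) ν g (A τ) (B τ) (-k) :=
        fun τ => momR_eq (hu τ) (hθ τ) hk h0 h1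
      unfold MomEq
      simp only [hm]
      refine ⟨hE.const_mul _, ?_⟩
      rw [dot_int_eq (hu t) hk h0 h1, dot_int_eq (hu s) hk h0 h1,
        intervalIntegral.integral_const_mul, ← mul_sub, H.i1 s t hst (-k) hk']
      rfl
  · intro k s _ t _ hst
    have hm : ∀ τ, temR L (u τ) (θ τ) k = NlI (qt (2 * Real.pi / L)) (A τ) (B τ) (-k) :=
      fun τ => temR_eq (hu τ) (hθ τ) k
    unfold TemEq
    simp only [hm]
    refine ⟨NlI_int (q := qt (2 * Real.pi / L)) (k := -k) (fun l => abs_qt_le hκ l (-k))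
        (mul_nonneg hκ (nm_nonneg _)) hX hY H.n1 H.n2 H.z1 H.contA H.contB s t, ?_⟩
    rw [int_ek, int_ek, hθ, hθ]
    by_cases hk : k = 0
    · subst hk
      rw [neg_zero, H.z2, H.z2, sub_zero]
      have h0 : ∀ τ, NlI (qt (2 * Real.pi / L)) (A τ) (B τ) 0 = 0 := by
        intro τ
        unfold NlI
        have : ∀ l, (qt (2 * Real.pi / L) l 0 : ℂ) * A τ l * B τ (0 - l) = 0 := by
          intro l
          simp [qt, cr]
        simp only [this, tsum_zero]
      simp only [h0]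
      simp
    · exact H.i2 s t hst (-k) (neg_ne_zero.mpr hk)

/-- Main theorem. -/
theorem main {L ν g : ℝ} (hL : 0 < L) (hν : 0 < ν) (hg : 0 ≤ g) (θ0 : L2)
    (h0 : ∫ y, θ0 y ∂mu = 0) :
    ∃ (u : ℝ → Fin 2 → L2) (θ : ℝ → L2), IsSol L ν g univ u θ ∧ θ 0 = θ0 ∧
      (∀ t, ‖u t‖ ≤ g / (ν * (2 * Real.pi / L) ^ 2) * ‖θ0‖) ∧ ∀ t, ‖θ t‖ ≤ ‖θ0‖ := by
  set κ : ℝ := 2 * Real.pi / L with hκ
  have hκ0 : 0 < κ := by positivity
  set Y : ℝ := ‖θ0‖ with hY
  have hY0 : 0 ≤ Y := norm_nonneg _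
  set X : ℝ := g / (ν * κ ^ 2) * Y with hX
  have hX0 : 0 ≤ X := by positivity
  choose A B hAB hB0 using fun n : ℕ => apx (κ := κ) (ν := ν) (g := g) hκ0 hν hg
    (y := fc θ0) (fc_neg θ0) (Y := Y) hY0 (fun K => sum_fc_le θ0 K) n
  obtain ⟨φ, hφ, Ai, Bi, H, lA, lB⟩ := exists_lims hκ0 hν hX0 hY0 hAB
  choose u hu hun using fun (t : ℝ) (i : Fin 2) => exists_fn (c := uh i (Ai t))
    (uh_conj (H.r1 t) i) hX0 (fun K => (Finset.sum_le_sum fun k _ => uh_le (Ai t) k i).trans
      (H.n1 t K))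
  choose θ hθ hθn using fun (t : ℝ) => exists_fn (c := Bi t) (H.r2 t) hY0 (H.n2 t)
  refine ⟨u, θ, sol_of_lims hL hν hX0 hY0 H hu hun hθ hθn, ?_, ?_, hθn⟩
  · refine ext_fc fun k => ?_
    rw [hθ]
    by_cases hk : k = 0
    · subst hk
      rw [H.z2, fc_zero_int, h0, Complex.ofReal_zero]
    · refine tendsto_nhds_unique (lB 0 k) ?_
      obtain ⟨N0, hN0⟩ := exists_mem_KN hk
      refine tendsto_const_nhds.congr' ?_
      filter_upwards [hφ.tendsto_atTop.eventually_ge_atTop N0] with n hn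
      rw [hB0 (φ n) k (hN0 _ hn)]
  · intro t
    rw [pi_norm_le_iff_of_nonneg hX0]
    exact hun t

end Pool.Agent.V1183.BQ
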