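import Mathlib
import Pool.Agent.V1183.BQ.Main

/-!
Time shifts and restrictions of solutions.
-/

open MeasureTheory Set Filter Topology

namespace Pool.Agent.V1183.BQ

theorem IsSol.mono {L ν g : ℝ} {I J : Set ℝ} {u : ℝ → Fin 2 → L2} {θ : ℝ → L2}
    (h : IsSol L ν g J u θ) (hIJ : I ⊆ J) : IsSol L ν g I u θ :=
  ⟨fun t ht => h.u_H t (hIJ ht), fun t ht => h.θ_mean t (hIJ ht),
    fun i φ => (h.u_cw i φ).mono hIJ, fun φ => (h.θ_cw φ).mono hIJ,
    fun s hs t ht => h.u_V s (hIJ hs) t (hIJ ht),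
    fun k c hc s hs t ht hst => h.momentum k c hc s (hIJ hs) t (hIJ ht) hst,
    fun k s hs t ht hst => h.temperature k s (hIJ hs) t (hIJ ht) hst⟩

theorem IsSolution.mono' {L ν g : ℝ} {I J : Set ℝ} {u : ℝ → Fin 2 → T2 → ℝ} {θ : ℝ → T2 → ℝ}
    (h : IsSolution L ν g J u θ) (hIJ : I ⊆ J) : IsSolution L ν g I u θ :=
  ⟨fun t ht => h.u_H t (hIJ ht), fun t ht => h.θ_L2 t (hIJ ht),
    fun i φ hφ => (h.u_cw i φ hφ).mono hIJ, fun φ hφ => (h.θ_cw φ hφ).mono hIJ,
    fun s hs t ht => h.u_V s (hIJ hs) t (hIJ ht),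
    fun k c hc s hs t ht hst => h.momentum k c hc s (hIJ hs) t (hIJ ht) hst,
    fun k s hs t ht hst => h.temperature k s (hIJ hs) t (hIJ ht) hst⟩

theorem IsSol.shift {L ν g : ℝ} {u : ℝ → Fin 2 → L2} {θ : ℝ → L2}
    (h : IsSol L ν g univ u θ) (a : ℝ) :
    IsSol L ν g univ (fun t => u (t - a)) (fun t => θ (t - a)) := by
  refine ⟨fun t _ => h.u_H _ (mem_univ _), fun t _ => h.θ_mean _ (mem_univ _), ?_, ?_, ?_, ?_, ?_⟩
  · intro i φ
    exact (h.u_cw i φ).comp (continuous_id.sub continuous_const).continuousOn (mapsTo_univ _ _)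
  · intro φ
    exact (h.θ_cw φ).comp (continuous_id.sub continuous_const).continuousOn (mapsTo_univ _ _)
  · intro s _ t _
    have h1 := h.u_V (s - a) (mem_univ _) (t - a) (mem_univ _)
    have h2 := (measurePreserving_sub_right (volume : Measure ℝ) a).setLIntegral_comp_preimage_emb
      (measurableEmbedding_subRight a) (fun τ => gradSq (u τ)) (Icc (s - a) (t - a))
    rw [show (fun x => x - a) ⁻¹' Icc (s - a) (t - a) = Icc s t by
      rw [preimage_sub_const_Icc]; simp] at h2
    rw [h2]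
    exact h1
  · intro k c hc s _ t _ hst
    obtain ⟨h1, h2⟩ := h.momentum k c hc (s - a) (mem_univ _) (t - a) (mem_univ _)
      (by linarith)
    refine ⟨?_, ?_⟩
    · have := h1.comp_sub_right a
      simpa using this
    · rw [h2]
      have := intervalIntegral.integral_comp_sub_right (a := s) (b := t)
        (fun τ => momR L ν g (u τ) (θ τ) k c) a
      exact this.symm
  · intro k s _ t _ hst
    obtain ⟨h1, h2⟩ := h.temperature k (s - a) (mem_univ _) (t - a) (mem_univ _)
      (by linarith)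
    refine ⟨?_, ?_⟩
    · have := h1.comp_sub_right a
      simpa using this
    · rw [h2]
      have := intervalIntegral.integral_comp_sub_right (a := s) (b := t)
        (fun τ => temR L (u τ) (θ τ) k) a
      exact this.symm

end Pool.Agent.V1183.BQ
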