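import Mathlib
import Pool.Agent.V1183.BQ.Shift

/-!
The main theorem in terms of functions.
-/

open MeasureTheory Set Filter Topology

namespace Pool.Agent.V1183.BQ

theorem main_fun {L ν g : ℝ} (hL : 0 < L) (hν : 0 < ν) (hg : 0 ≤ g) (θ0 : T2 → ℝ)
    (h0 : InL2 θ0) :
    ∃ (u : ℝ → Fin 2 → T2 → ℝ) (θ : ℝ → T2 → ℝ) (M : ℝ),
      (∀ a, IsSolution L ν g univ (fun t => u (t - a)) (fun t => θ (t - a))) ∧
      θ 0 =ᵐ[mu] θ0 ∧ ∀ t, NormSqLe (u t) (θ t) M := by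
  obtain ⟨h1, h2⟩ := h0
  obtain ⟨u, θ, hsol, hθ0, hu, hθ⟩ := main hL hν hg (h1.toLp)
    ((integral_congr_ae h1.coeFn_toLp).trans h2)
  refine ⟨fun t i => (u t i : T2 → ℝ), fun t => (θ t : T2 → ℝ), _,
    fun a => (hsol.shift a).toIsSolution, ?_, fun t =>
      normSqLe_of (fun i => (norm_le_pi_norm (u t) i).trans (hu t)) (hθ t)⟩
  show (θ 0 : T2 → ℝ) =ᵐ[mu] θ0
  rw [hθ0]
  exact h1.coeFn_toLp

end Pool.Agent.V1183.BQ
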